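import Pool.Agent.Helper47.HP.Epi

/-! # Project HP: sublevel sets are bounded modulo the flat directions -/

set_option autoImplicit false

open Set

namespace Pool.Agent.Helper47.HP

variable {E : Type*} [NormedAddCommGroup E] [NormedSpace ℝ E] [FiniteDimensional ℝ E] (P : Pot E)

omit [FiniteDimensional ℝ E] in
private theorem lb_mem {x v : E} (hx : x ∈ P.X) (hv : v ∈ P.V) : x + v ∈ P.X := by
  have h := (P.mem_V v).1 hv x hx 1
  rwa [one_smul] at h

omit [FiniteDimensional ℝ E] in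
/-- `ψ` is invariant under the flat directions -/
private theorem lb_inv (W : Submodule ℝ E) (hW : P.IsFlat W) {x : E} (hx : x ∈ P.X)
    (p : E →ₗ[ℝ] ℝ) (hp : P.Supp p) {w : E} (hw : w ∈ W) :
    P.φ (x + w) - p w = P.φ x := by
  obtain ⟨hwV, τ, hτ⟩ := (hW w).1 hw
  obtain ⟨h1, h2⟩ := P.epi_of_flat hwV hτ
  have h3 : p w = τ := (hp _ h1).2 h2
  have h4 := hτ x hx 1
  rw [one_smul, one_mul] at h4
  rw [h4, h3]
  ring

private theorem lb_cont {x₀ : E} (hx₀ : x₀ ∈ P.X) (p : E →ₗ[ℝ] ℝ) :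
    ContinuousOn (fun v => P.φ (x₀ + v) - p v) (P.V : Set E) := by
  have h1 : ContinuousOn P.φ P.X := P.conv.continuousOn P.isOpen
  have h2 : ContinuousOn (fun v => P.φ (x₀ + v)) (P.V : Set E) :=
    h1.comp (continuous_const.add continuous_id).continuousOn
      (fun v hv => lb_mem P hx₀ hv)
  exact h2.sub (LinearMap.continuous_of_finiteDimensional p).continuousOn

/-- bounded sublevel sets in a complement -/
private theorem lb_compl (W W' : Submodule ℝ E) (hWW : Disjoint W W') (hW : P.IsFlat W)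
    {x₀ : E} (hx₀ : x₀ ∈ P.X)
    (p : E →ₗ[ℝ] ℝ) (hp : P.Supp p) (r : ℝ) :
    ∃ ϱ : ℝ, ∀ v ∈ P.V, v ∈ W' → P.φ (x₀ + v) - p v ≤ r → ‖v‖ ≤ ϱ := by
  by_contra hcon
  push Not at hcon
  choose v hvV hvW hvr hvn using fun n : ℕ => hcon (n : ℝ)
  have hpos : ∀ n, 0 < ‖v n‖ := fun n => lt_of_le_of_lt (Nat.cast_nonneg n) (hvn n)
  have hsph : ∀ n, (‖v n‖⁻¹ • v n) ∈ Metric.sphere (0 : E) 1 := by
    intro n
    rw [mem_sphere_zero_iff_norm, norm_smul, norm_inv, norm_norm,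
      inv_mul_cancel₀ (hpos n).ne']
  obtain ⟨u, hu, ns, hns, hlim⟩ := (isCompact_sphere (0 : E) 1).tendsto_subseq hsph
  have huV : u ∈ P.V := by
    have hc : IsClosed (P.V : Set E) := P.V.closed_of_finiteDimensional
    exact hc.mem_of_tendsto hlim
      (Filter.Eventually.of_forall fun k => P.V.smul_mem _ (hvV (ns k)))
  have huW : u ∈ W' := by
    have hc : IsClosed (W' : Set E) := W'.closed_of_finiteDimensional
    exact hc.mem_of_tendsto hlim
      (Filter.Eventually.of_forall fun k => W'.smul_mem _ (hvW (ns k)))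
  have hcont := lb_cont P hx₀ p
  have hle : ∀ t : ℝ, 0 ≤ t → P.φ (x₀ + t • u) ≤ max (P.φ x₀) r + t * p u := by
    intro t ht
    have htV : t • u ∈ P.V := P.V.smul_mem _ huV
    have h1 : Filter.Tendsto (fun k => t • (‖v (ns k)‖⁻¹ • v (ns k))) Filter.atTop
        (nhdsWithin (t • u) (P.V : Set E)) := by
      rw [tendsto_nhdsWithin_iff]
      refine ⟨hlim.const_smul t, Filter.Eventually.of_forall fun k => ?_⟩
      exact P.V.smul_mem _ (P.V.smul_mem _ (hvV (ns k)))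
    have h2 := (hcont (t • u) htV).tendsto.comp h1
    have h3 : P.φ (x₀ + t • u) - p (t • u) ≤ max (P.φ x₀) r := by
      refine le_of_tendsto h2 ?_
      have h4 : ∀ᶠ k : ℕ in Filter.atTop, t ≤ (k : ℝ) :=
        Filter.eventually_atTop.2 ⟨⌈t⌉₊, fun k hk =>
          (Nat.le_ceil t).trans (Nat.cast_le.2 hk)⟩
      filter_upwards [h4] with k hk
      have h5 : t ≤ ‖v (ns k)‖ := by
        have h6 : (k : ℝ) ≤ (ns k : ℝ) := Nat.cast_le.2 (hns.id_le k)
        have h7 := hvn (ns k)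
        linarith
      have hn := hpos (ns k)
      have ha0 : 0 ≤ t * ‖v (ns k)‖⁻¹ := mul_nonneg ht (inv_nonneg.2 hn.le)
      have ha1 : t * ‖v (ns k)‖⁻¹ ≤ 1 := by
        rw [← div_eq_mul_inv, div_le_one hn]
        exact h5
      have h8 := P.conv.2 hx₀ (lb_mem P hx₀ (hvV (ns k)))
        (sub_nonneg.2 ha1) ha0 (by ring)
      have h9 : (1 - t * ‖v (ns k)‖⁻¹) • x₀ + (t * ‖v (ns k)‖⁻¹) • (x₀ + v (ns k))
          = x₀ + t • (‖v (ns k)‖⁻¹ • v (ns k)) := by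
        module
      rw [h9, smul_eq_mul, smul_eq_mul] at h8
      change P.φ (x₀ + t • (‖v (ns k)‖⁻¹ • v (ns k)))
        - p (t • (‖v (ns k)‖⁻¹ • v (ns k))) ≤ _
      have h10 : p (t • (‖v (ns k)‖⁻¹ • v (ns k))) = (t * ‖v (ns k)‖⁻¹) * p (v (ns k)) := by
        rw [map_smul, map_smul, smul_eq_mul, smul_eq_mul]
        ring
      rw [h10]
      have h11 := hvr (ns k)
      generalize t * ‖v (ns k)‖⁻¹ = a at h8 ha0 ha1 ⊢
      have h12 : a * P.φ (x₀ + v (ns k)) ≤ a * (r + p (v (ns k))) :=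
        mul_le_mul_of_nonneg_left (by linarith) ha0
      have h13 : (1 - a) * P.φ x₀ ≤ (1 - a) * max (P.φ x₀) r :=
        mul_le_mul_of_nonneg_left (le_max_left _ _) (by linarith)
      have h14 : a * r ≤ a * max (P.φ x₀) r :=
        mul_le_mul_of_nonneg_left (le_max_right _ _) ha0
      nlinarith
    rw [map_smul, smul_eq_mul] at h3
    linarith
  have hepi : (u, p u) ∈ P.epi := P.mem_epi_of_le hx₀ huV hle
  have hepi' : -((u, p u) : E × ℝ) ∈ P.epi := by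
    by_contra hcon'
    exact lt_irrefl _ ((hp _ hepi).1 hcon')
  have hflat := P.flat_of_epi hepi hepi'
  have huW2 : u ∈ W := (hW u).2 ⟨huV, p u, hflat⟩
  have hu0 : u = 0 := by
    have h := Submodule.disjoint_def.1 hWW u huW2 huW
    exact h
  rw [mem_sphere_zero_iff_norm, hu0, norm_zero] at hu
  exact zero_ne_one hu

theorem Pot.sublevel_bdd (W : Submodule ℝ E) (hW : P.IsFlat W) {x₀ : E} (hx₀ : x₀ ∈ P.X)
    (p : E →ₗ[ℝ] ℝ) (hp : P.Supp p) (r : ℝ) :
    ∃ ϱ : ℝ, ∀ v ∈ P.V, P.φ (x₀ + v) - p v ≤ r → ∃ w ∈ W, ‖v - w‖ ≤ ϱ := by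
  obtain ⟨W', hWW⟩ := Submodule.exists_isCompl W
  obtain ⟨ϱ, hϱ⟩ := lb_compl P W W' hWW.disjoint hW hx₀ p hp r
  refine ⟨ϱ, fun v hv hr => ?_⟩
  have hvtop : v ∈ W ⊔ W' := by
    rw [hWW.sup_eq_top]
    exact Submodule.mem_top
  obtain ⟨w, hw, w', hw', rfl⟩ := Submodule.mem_sup.1 hvtop
  have hwV : w ∈ P.V := ((hW w).1 hw).1
  have hw'V : w' ∈ P.V := by
    have h := P.V.sub_mem hv hwV
    rwa [add_sub_cancel_left] at h
  refine ⟨w, hw, ?_⟩
  rw [add_sub_cancel_left]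
  apply hϱ w' hw'V hw'
  have h1 := lb_inv P W hW (lb_mem P hx₀ hw'V) p hp hw
  have h2 : x₀ + w' + w = x₀ + (w + w') := by abel
  rw [h2] at h1
  rw [map_add] at hr
  linarith

theorem Pot.bdd_below (W : Submodule ℝ E) (hW : P.IsFlat W) {x₀ : E} (hx₀ : x₀ ∈ P.X)
    (p : E →ₗ[ℝ] ℝ) (hp : P.Supp p) :
    ∃ c : ℝ, ∀ v ∈ P.V, p v ≤ P.φ (x₀ + v) + c := by
  obtain ⟨ϱ, hϱ⟩ := P.sublevel_bdd W hW hx₀ p hp (P.φ x₀)
  have hK : IsCompact (Metric.closedBall (0 : E) ϱ ∩ (P.V : Set E)) :=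
    (isCompact_closedBall (0 : E) ϱ).inter_right P.V.closed_of_finiteDimensional
  have hcont := (lb_cont P hx₀ p).mono (Set.inter_subset_right (s := Metric.closedBall (0 : E) ϱ))
  obtain ⟨m, hm⟩ := hK.bddBelow_image hcont
  refine ⟨max (-m) (-P.φ x₀), fun v hv => ?_⟩
  by_cases hr : P.φ (x₀ + v) - p v ≤ P.φ x₀
  · obtain ⟨w, hw, hvw⟩ := hϱ v hv hr
    have hwV : w ∈ P.V := ((hW w).1 hw).1
    have h1 : v - w ∈ P.V := P.V.sub_mem hv hwV
    have h2 : m ≤ P.φ (x₀ + (v - w)) - p (v - w) := by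
      apply hm
      refine ⟨v - w, ⟨?_, h1⟩, rfl⟩
      rw [mem_closedBall_zero_iff]
      exact hvw
    have h3 := lb_inv P W hW (lb_mem P hx₀ h1) p hp hw
    have h4 : x₀ + (v - w) + w = x₀ + v := by abel
    rw [h4] at h3
    rw [map_sub] at h2
    have h5 := le_max_left (-m) (-P.φ x₀)
    linarith
  · have h5 := le_max_right (-m) (-P.φ x₀)
    push Not at hr
    linarith

end Pool.Agent.Helper47.HP
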