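import Mathlib

/-! # Project HP: closed salient cones -/

set_option autoImplicit false

open Set

namespace Pool.Agent.Helper47.HP

private theorem sep_one {Q : Type*} [NormedAddCommGroup Q] [NormedSpace ℝ Q] (S : Set Q)
    (hS : IsClosed S) (h0 : (0 : Q) ∈ S)
    (hadd : ∀ a ∈ S, ∀ b ∈ S, a + b ∈ S) (hsmul : ∀ a ∈ S, ∀ t : ℝ, 0 ≤ t → t • a ∈ S)
    (a : Q) (ha : -a ∉ S) : ∃ f : StrongDual ℝ Q, (∀ b ∈ S, 0 ≤ f b) ∧ 0 < f a := by
  have hconv : Convex ℝ S := by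
    intro x hx y hy s t hs ht _
    exact hadd _ (hsmul x hx s hs) _ (hsmul y hy t ht)
  obtain ⟨f, u, hu, hf⟩ := geometric_hahn_banach_point_closed hconv hS ha
  have hu0 : u < 0 := by
    have := hf 0 h0
    rwa [map_zero] at this
  refine ⟨f, fun b hb => ?_, ?_⟩
  · by_contra hneg
    push Not at hneg
    have h1 := hf _ (hsmul b hb (u / f b) (div_nonneg_of_nonpos hu0.le hneg.le))
    rw [map_smul, smul_eq_mul, div_mul_cancel₀ _ hneg.ne] at h1
    exact lt_irrefl _ h1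
  · rw [map_neg] at hu
    linarith

/-- A closed convex cone without lines in a finite-dimensional space has a strictly positive
linear form. -/
theorem exists_pos_form {Q : Type*} [NormedAddCommGroup Q] [NormedSpace ℝ Q]
    [FiniteDimensional ℝ Q] (S : Set Q) (hS : IsClosed S) (h0 : (0 : Q) ∈ S)
    (hadd : ∀ a ∈ S, ∀ b ∈ S, a + b ∈ S) (hsmul : ∀ a ∈ S, ∀ t : ℝ, 0 ≤ t → t • a ∈ S)
    (hsal : ∀ a ∈ S, -a ∈ S → a = 0) :
    ∃ (f : Q →ₗ[ℝ] ℝ) (c : ℝ), 0 < c ∧ ∀ a ∈ S, c * ‖a‖ ≤ f a := by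
  classical
  have : ProperSpace Q := FiniteDimensional.proper_real Q
  have hcomp : IsCompact (Metric.sphere (0 : Q) 1 ∩ S) := (isCompact_sphere 0 1).inter_right hS
  have hne : ∀ a ∈ Metric.sphere (0 : Q) 1 ∩ S, -a ∉ S := by
    rintro a ⟨ha1, ha2⟩ h
    rw [hsal a ha2 h, mem_sphere_zero_iff_norm, norm_zero] at ha1
    exact zero_ne_one ha1
  choose! f hf1 hf2 using fun (a : Q) (ha : -a ∉ S) => sep_one S hS h0 hadd hsmul a ha
  obtain ⟨t, ht⟩ := hcomp.elim_finite_subcover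
    (fun a : (Metric.sphere (0 : Q) 1 ∩ S : Set Q) => {x : Q | 0 < f a x})
    (fun a => isOpen_lt continuous_const (f a).continuous)
    (fun a ha => mem_iUnion.2 ⟨⟨a, ha⟩, hf2 a (hne a ha)⟩)
  set F : StrongDual ℝ Q := ∑ a ∈ t, f a with hF
  have hFv : ∀ x, F x = ∑ a ∈ t, f a x := by
    intro x
    rw [hF]
    simp
  have hpos : ∀ x ∈ Metric.sphere (0 : Q) 1 ∩ S, 0 < F x := by
    intro x hx
    obtain ⟨a, hat, hax⟩ := mem_iUnion₂.1 (ht hx)
    rw [hFv]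
    exact Finset.sum_pos' (fun b _ => hf1 b (hne b b.2) x hx.2) ⟨a, hat, hax⟩
  have key : ∃ c : ℝ, 0 < c ∧ ∀ x ∈ Metric.sphere (0 : Q) 1 ∩ S, c ≤ F x := by
    rcases (Metric.sphere (0 : Q) 1 ∩ S).eq_empty_or_nonempty with he | hn
    · refine ⟨1, one_pos, fun x hx => ?_⟩
      rw [he] at hx
      exact absurd hx (notMem_empty x)
    · obtain ⟨x₀, hx₀, hmin⟩ := hcomp.exists_isMinOn hn F.continuous.continuousOn
      exact ⟨F x₀, hpos x₀ hx₀, fun x hx => hmin hx⟩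
  obtain ⟨c, hc, hcF⟩ := key
  refine ⟨F.toLinearMap, c, hc, ?_⟩
  intro a ha
  by_cases ha0 : a = 0
  · rw [ha0]
    simp
  · have hn : 0 < ‖a‖ := norm_pos_iff.2 ha0
    have h1 : (‖a‖⁻¹ • a) ∈ Metric.sphere (0 : Q) 1 ∩ S := by
      refine ⟨?_, hsmul a ha _ (inv_nonneg.2 hn.le)⟩
      rw [mem_sphere_zero_iff_norm, norm_smul, norm_inv, norm_norm, inv_mul_cancel₀ hn.ne']
    have h2 := hcF _ h1
    rw [map_smul, smul_eq_mul] at h2
    have h4 := mul_le_mul_of_nonneg_right h2 hn.le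
    calc c * ‖a‖ ≤ ‖a‖⁻¹ * F a * ‖a‖ := h4
      _ = F a := by field_simp

end Pool.Agent.Helper47.HP
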