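import Mathlib

/-! # Project HP: invariant flags with irreducible quotients -/

set_option autoImplicit false

open Set

namespace Pool.Agent.Helper47.HP

theorem exists_flag {G E : Type*} [AddCommGroup E] [Module ℝ E] [FiniteDimensional ℝ E]
    (A : G → (E →ₗ[ℝ] E)) (W V : Submodule ℝ E) (hWV : W ≤ V) (hW : ∀ g, ∀ v ∈ W, A g v ∈ W)
    (hV : ∀ g, ∀ v ∈ V, A g v ∈ V) :
    ∃ (s : ℕ) (F : ℕ → Submodule ℝ E), F 0 = W ∧ F s = V ∧ ∀ i < s, F i ≤ F (i + 1) ∧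
      (∀ g, ∀ v ∈ F i, A g v ∈ F i) ∧ (∀ g, ∀ v ∈ F (i + 1), A g v ∈ F (i + 1)) ∧
      (W ≤ F i) ∧ (F (i + 1) ≤ V) ∧
      ∀ S, F i ≤ S → S ≤ F (i + 1) → (∀ g, ∀ v ∈ S, A g v ∈ S) → S = F i ∨ S = F (i + 1) := by
  obtain ⟨n, hn⟩ : ∃ n, n = Module.finrank ℝ V - Module.finrank ℝ W := ⟨_, rfl⟩
  induction n using Nat.strong_induction_on generalizing W with
  | _ n ih =>
    by_cases hVW : W = V
    · exact ⟨0, fun _ => W, rfl, hVW, fun i hi => absurd hi (Nat.not_lt_zero i)⟩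
    · have hlt : W < V := lt_of_le_of_ne hWV hVW
      let Q : ℕ → Prop := fun d => ∃ S : Submodule ℝ E, W < S ∧ S ≤ V ∧
        (∀ g, ∀ v ∈ S, A g v ∈ S) ∧ Module.finrank ℝ S = d
      have hQ : ∃ d, Q d := ⟨_, V, hlt, le_rfl, hV, rfl⟩
      classical
      obtain ⟨S, hS1, hS2, hS3, hS4⟩ := Nat.find_spec hQ
      have hmin : ∀ T : Submodule ℝ E, W < T → T ≤ V → (∀ g, ∀ v ∈ T, A g v ∈ T) →
          Module.finrank ℝ S ≤ Module.finrank ℝ T := by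
        intro T h1 h2 h3
        rw [hS4]
        exact Nat.find_min' hQ ⟨T, h1, h2, h3, rfl⟩
      have h5 : Module.finrank ℝ W < Module.finrank ℝ S := Submodule.finrank_lt_finrank_of_lt hS1
      have h6 : Module.finrank ℝ S ≤ Module.finrank ℝ V := Submodule.finrank_mono hS2
      obtain ⟨s, F, hF0, hFs, hF⟩ := ih (Module.finrank ℝ V - Module.finrank ℝ S) (by omega) S hS2
        hS3 rfl
      refine ⟨s + 1, fun i => Nat.casesOn i W F, rfl, hFs, fun i hi => ?_⟩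
      rcases i with _ | i
      · change W ≤ F 0 ∧ (∀ g, ∀ v ∈ W, A g v ∈ W) ∧ (∀ g, ∀ v ∈ F 0, A g v ∈ F 0) ∧ W ≤ W ∧
          F 0 ≤ V ∧ ∀ T, W ≤ T → T ≤ F 0 → (∀ g, ∀ v ∈ T, A g v ∈ T) → T = W ∨ T = F 0
        rw [hF0]
        refine ⟨hS1.le, hW, hS3, le_rfl, hS2, fun T h1 h2 h3 => ?_⟩
        rcases eq_or_lt_of_le h1 with h | h
        · exact Or.inl h.symm
        · right
          exact Submodule.eq_of_le_of_finrank_le h2 (hmin T h (h2.trans hS2) h3)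
      · change F i ≤ F (i + 1) ∧ (∀ g, ∀ v ∈ F i, A g v ∈ F i) ∧
          (∀ g, ∀ v ∈ F (i + 1), A g v ∈ F (i + 1)) ∧ W ≤ F i ∧ F (i + 1) ≤ V ∧
          ∀ T, F i ≤ T → T ≤ F (i + 1) → (∀ g, ∀ v ∈ T, A g v ∈ T) → T = F i ∨ T = F (i + 1)
        obtain ⟨h7, h8, h9, h10, h11, h12⟩ := hF i (by omega)
        exact ⟨h7, h8, h9, hS1.le.trans h10, h11, h12⟩

end Pool.Agent.Helper47.HP
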