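import Mathlib

/-! # Project HP: an irreducible representation is bounded by finitely many traces -/

set_option autoImplicit false

open Set

namespace Pool.Agent.Helper47.HP

/-- a nonzero fixed vector of `c` gives a multiple of `c` by a polynomial in `c` of nonzero trace -/
private theorem irr_trace {Y : Type*} [AddCommGroup Y] [Module ℝ Y] [FiniteDimensional ℝ Y]
    (c : Y →ₗ[ℝ] Y) (y : Y) (hy : y ≠ 0) (hc : c y = y) :
    ∃ p : Polynomial ℝ, LinearMap.trace ℝ Y (c * Polynomial.aeval c p) ≠ 0 := by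
  classical
  have hne : (minpoly ℝ c) ≠ 0 := minpoly.ne_zero (Algebra.IsIntegral.isIntegral c)
  obtain ⟨r, hr, hr1⟩ := Polynomial.exists_eq_pow_rootMultiplicity_mul_and_not_dvd
    (minpoly ℝ c) hne (1 : ℝ)
  obtain ⟨m, hm⟩ : ∃ m : ℕ, m = (minpoly ℝ c).rootMultiplicity 1 := ⟨_, rfl⟩
  rw [← hm] at hr
  have hirr : Irreducible (Polynomial.X - Polynomial.C (1 : ℝ)) := Polynomial.irreducible_X_sub_C 1
  have hcop1 : IsCoprime (Polynomial.X - Polynomial.C (1 : ℝ)) r :=
    (hirr.coprime_iff_not_dvd).2 hr1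
  have hcop2 : IsCoprime (Polynomial.X - Polynomial.C (1 : ℝ)) (Polynomial.X : Polynomial ℝ) := by
    refine ⟨-1, 1, ?_⟩
    simp
  have hcop : IsCoprime ((Polynomial.X - Polynomial.C (1 : ℝ)) ^ m) (Polynomial.X * r) :=
    (IsCoprime.mul_right hcop2 hcop1).pow_left
  obtain ⟨u, v, huv⟩ := hcop
  -- e = v X r
  obtain ⟨e, he⟩ : ∃ e : Y →ₗ[ℝ] Y, e = Polynomial.aeval c (v * (Polynomial.X * r)) := ⟨_, rfl⟩
  have hidem : IsIdempotentElem e := by
    unfold IsIdempotentElem
    have h1 : v * (Polynomial.X * r) * (v * (Polynomial.X * r)) =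
        v * (Polynomial.X * r) - (v * Polynomial.X * u) * minpoly ℝ c := by
      rw [hr]
      have h2 : v * (Polynomial.X * r) = 1 - u * (Polynomial.X - Polynomial.C (1 : ℝ)) ^ m := by
        rw [← huv]; ring
      linear_combination (v * (Polynomial.X * r)) * h2
    rw [he, ← map_mul, h1, map_sub, map_mul _ _ (minpoly ℝ c), minpoly.aeval, mul_zero, sub_zero]
  have heval : ∀ P : Polynomial ℝ, (Polynomial.aeval c P) y = P.eval 1 • y := by
    intro P
    induction P using Polynomial.induction_on' with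
    | add p q hp hq =>
      rw [map_add, LinearMap.add_apply, hp, hq, Polynomial.eval_add, add_smul]
    | monomial n a =>
      rw [Polynomial.aeval_monomial, Polynomial.eval_monomial]
      have h3 : ∀ n : ℕ, (c ^ n) y = y := by
        intro n
        induction n with
        | zero => simp
        | succ n ih => rw [pow_succ, Module.End.mul_apply, hc, ih]
      rw [Module.End.mul_apply, h3, Module.algebraMap_end_apply]
      simp
  have hmpos : 0 < m := by
    rw [hm, Polynomial.rootMultiplicity_pos hne]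
    have h4 := heval (minpoly ℝ c)
    rw [minpoly.aeval, LinearMap.zero_apply] at h4
    rcases smul_eq_zero.1 h4.symm with h5 | h5
    · exact h5
    · exact absurd h5 hy
  have hey : e y = y := by
    rw [he, heval]
    have h5 : (v * (Polynomial.X * r)).eval 1 = 1 := by
      have h6 := congrArg (Polynomial.eval (1 : ℝ)) huv
      rw [Polynomial.eval_add, Polynomial.eval_one] at h6
      have h7 : Polynomial.eval (1 : ℝ) (u * (Polynomial.X - Polynomial.C (1 : ℝ)) ^ m) = 0 := by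
        rw [Polynomial.eval_mul, Polynomial.eval_pow]
        simp [hmpos.ne']
      rw [h7, zero_add] at h6
      exact h6
    rw [h5, one_smul]
  have hene : e ≠ 0 := by
    intro h8
    rw [h8, LinearMap.zero_apply] at hey
    exact hy hey.symm
  refine ⟨v * r, ?_⟩
  have h9 : c * Polynomial.aeval c (v * r) = e := by
    rw [he]
    have : v * (Polynomial.X * r) = Polynomial.X * (v * r) := by ring
    rw [this, map_mul _ Polynomial.X, Polynomial.aeval_X]
  rw [h9]
  intro h10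
  exact hene (LinearMap.IsIdempotentElem.eq_zero_of_trace_eq_zero hidem h10)

/-- The trace form of the enveloping algebra of an irreducible representation is nondegenerate. -/
theorem trace_nondeg {G Y : Type*} [Group G] [AddCommGroup Y] [Module ℝ Y]
    [FiniteDimensional ℝ Y] (τ : G →* (Y →ₗ[ℝ] Y))
    (hirr : ∀ S : Submodule ℝ Y, (∀ g, ∀ y ∈ S, τ g y ∈ S) → S = ⊥ ∨ S = ⊤)
    (a : Y →ₗ[ℝ] Y) (ha : a ∈ Submodule.span ℝ (range τ))
    (h : ∀ g, LinearMap.trace ℝ Y (a * τ g) = 0) : a = 0 := by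
  by_contra hne
  -- the algebra
  obtain ⟨A, hA⟩ : ∃ A : Subalgebra ℝ (Y →ₗ[ℝ] Y), A = Algebra.adjoin ℝ (range τ) := ⟨_, rfl⟩
  have hspan : Subalgebra.toSubmodule A = Submodule.span ℝ (range τ) := by
    rw [hA, Algebra.adjoin_eq_span]
    congr 1
    have : (Submonoid.closure (range τ)) = MonoidHom.mrange τ := by
      rw [← MonoidHom.coe_mrange, Submonoid.closure_eq]
    rw [this, MonoidHom.coe_mrange]
  have hmem : ∀ b : Y →ₗ[ℝ] Y, b ∈ A ↔ b ∈ Submodule.span ℝ (range τ) := by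
    intro b
    rw [← hspan, Subalgebra.mem_toSubmodule]
  have htr : ∀ b ∈ A, LinearMap.trace ℝ Y (a * b) = 0 := by
    intro b hb
    rw [hmem] at hb
    induction hb using Submodule.span_induction with
    | mem b hb =>
      obtain ⟨g, rfl⟩ := hb
      exact h g
    | zero => simp
    | add b c _ _ hb hc => rw [mul_add, map_add, hb, hc, add_zero]
    | smul t b _ hb => rw [mul_smul_comm, map_smul, hb, smul_zero]
  obtain ⟨y, hy⟩ : ∃ y, a y ≠ 0 := by
    by_contra hno
    push Not at hno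
    exact hne (LinearMap.ext hno)
  -- the orbit of `a y` is everything
  have horb : Submodule.map (LinearMap.applyₗ (a y) : (Y →ₗ[ℝ] Y) →ₗ[ℝ] Y)
      (Subalgebra.toSubmodule A) = ⊤ := by
    rcases hirr (Submodule.map (LinearMap.applyₗ (a y) : (Y →ₗ[ℝ] Y) →ₗ[ℝ] Y)
      (Subalgebra.toSubmodule A)) (by
        intro g z hz
        obtain ⟨b, hb, rfl⟩ := Submodule.mem_map.1 hz
        refine Submodule.mem_map.2 ⟨τ g * b, ?_, rfl⟩
        rw [Subalgebra.mem_toSubmodule] at hb ⊢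
        exact A.mul_mem ((hmem _).2 (Submodule.subset_span (mem_range_self g))) hb) with h1 | h1
    · exfalso
      have h2 : a y ∈ Submodule.map (LinearMap.applyₗ (a y) : (Y →ₗ[ℝ] Y) →ₗ[ℝ] Y)
          (Subalgebra.toSubmodule A) :=
        Submodule.mem_map.2 ⟨1, (Subalgebra.mem_toSubmodule A).2 A.one_mem, rfl⟩
      rw [h1, Submodule.mem_bot] at h2
      exact hy h2
    · exact h1
  have hy2 : y ∈ Submodule.map (LinearMap.applyₗ (a y) : (Y →ₗ[ℝ] Y) →ₗ[ℝ] Y)
      (Subalgebra.toSubmodule A) := by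
    rw [horb]
    exact Submodule.mem_top
  obtain ⟨b, hb, hby⟩ := Submodule.mem_map.1 hy2
  rw [Subalgebra.mem_toSubmodule] at hb
  have hy0 : y ≠ 0 := by
    intro h0
    rw [h0, map_zero] at hy
    exact hy rfl
  have hfix : (b * a) y = y := hby
  obtain ⟨p, hp⟩ := irr_trace (b * a) y hy0 hfix
  apply hp
  have hain : a ∈ A := (hmem a).2 ha
  have hpin : Polynomial.aeval (b * a) p ∈ A := by
    have h1 : Algebra.adjoin ℝ ({b * a} : Set (Y →ₗ[ℝ] Y)) ≤ A := by
      rw [Algebra.adjoin_le_iff]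
      intro z hz
      rw [mem_singleton_iff] at hz
      rw [hz]
      exact A.mul_mem hb hain
    exact h1 (Polynomial.aeval_mem_adjoin_singleton ℝ (b * a))
  rw [mul_assoc, LinearMap.trace_mul_comm, mul_assoc]
  exact htr _ (A.mul_mem hpin hb)

theorem irr_bound {G Y : Type*} [Group G] [NormedAddCommGroup Y] [NormedSpace ℝ Y]
    [FiniteDimensional ℝ Y] (τ : G →* (Y →ₗ[ℝ] Y))
    (hirr : ∀ S : Submodule ℝ Y, (∀ g, ∀ y ∈ S, τ g y ∈ S) → S = ⊥ ∨ S = ⊤) :
    ∃ (s : Finset G) (M : ℝ), 0 ≤ M ∧ ∀ g y,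
      ‖τ g y‖ ≤ M * (∑ δ ∈ s, |LinearMap.trace ℝ Y (τ (g * δ))|) * ‖y‖ := by
  classical
  have hfg : (Submodule.span ℝ (range τ)).FG := IsNoetherian.noetherian _
  obtain ⟨s', hs', hspan⟩ := (Submodule.fg_span_iff_fg_span_finset_subset _).1 hfg
  -- choose group elements
  obtain ⟨s, hs⟩ : ∃ s : Finset G, s.image (fun g => τ g) = s' := by
    have h1 : ∀ b ∈ s', ∃ g, τ g = b := fun b hb => hs' (Finset.mem_coe.2 hb)
    choose! f hf using h1
    refine ⟨s'.image f, ?_⟩
    rw [Finset.image_image]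
    ext b
    simp only [Finset.mem_image, Function.comp_apply]
    constructor
    · rintro ⟨c, hc, rfl⟩
      rw [hf c hc]
      exact hc
    · intro hb
      exact ⟨b, hb, hf b hb⟩
  obtain ⟨B, hB⟩ : ∃ B : Submodule ℝ (Y →ₗ[ℝ] Y), B = Submodule.span ℝ (range τ) := ⟨_, rfl⟩
  -- the linear map
  let Φ : B →ₗ[ℝ] (s → ℝ) :=
    LinearMap.pi fun δ => (LinearMap.trace ℝ Y) ∘ₗ (LinearMap.mulRight ℝ (τ δ.1)) ∘ₗ B.subtype
  have hΦ : ∀ (b : B) (δ : s), Φ b δ = LinearMap.trace ℝ Y (b.1 * τ δ.1) := fun b δ => rfl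
  have hker : LinearMap.ker Φ = ⊥ := by
    rw [LinearMap.ker_eq_bot']
    intro b hb
    have h1 : ∀ c ∈ Submodule.span ℝ (range τ), LinearMap.trace ℝ Y (b.1 * c) = 0 := by
      intro c hc
      rw [hspan] at hc
      induction hc using Submodule.span_induction with
      | mem c hc =>
        rw [Finset.mem_coe, ← hs, Finset.mem_image] at hc
        obtain ⟨δ, hδ, rfl⟩ := hc
        have := congrFun hb ⟨δ, hδ⟩
        rw [hΦ] at this
        exact this
      | zero => simp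
      | add c d _ _ hc hd => rw [mul_add, map_add, hc, hd, add_zero]
      | smul t c _ hc => rw [mul_smul_comm, map_smul, hc, smul_zero]
    have h2 : b.1 = 0 := trace_nondeg τ hirr b.1 (hB ▸ b.2)
      (fun g => h1 _ (Submodule.subset_span (mem_range_self g)))
    exact Subtype.ext h2
  obtain ⟨Ψ, hΨ⟩ := LinearMap.exists_leftInverse_of_injective Φ hker
  refine ⟨s, ∑ δ : s, ‖LinearMap.toContinuousLinearMap (Ψ (Pi.single δ 1)).1‖,
    Finset.sum_nonneg fun _ _ => norm_nonneg _, fun g y => ?_⟩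
  have hg : τ g ∈ B := by
    rw [hB]
    exact Submodule.subset_span (mem_range_self g)
  have h1 : (⟨τ g, hg⟩ : B) = ∑ δ : s, (Φ ⟨τ g, hg⟩ δ) • Ψ (Pi.single δ 1) := by
    have h2 : Ψ (Φ ⟨τ g, hg⟩) = ⟨τ g, hg⟩ := by
      have := LinearMap.congr_fun hΨ ⟨τ g, hg⟩
      simpa using this
    rw [← h2]
    conv_lhs => rw [pi_eq_sum_univ' (Φ ⟨τ g, hg⟩)]
    rw [map_sum, h2]
    refine Finset.sum_congr rfl fun δ _ => ?_
    rw [map_smul]
  have h3 : τ g y = ∑ δ : s, (LinearMap.trace ℝ Y (τ (g * δ.1))) • (Ψ (Pi.single δ 1)).1 y := by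
    have h4 := congrArg (fun b : B => b.1 y) h1
    simp only at h4
    rw [h4]
    rw [AddSubmonoidClass.coe_finsetSum, LinearMap.sum_apply]
    refine Finset.sum_congr rfl fun δ _ => ?_
    rw [hΦ, map_mul τ g δ.1]
    rfl
  rw [h3]
  refine (norm_sum_le _ _).trans ?_
  rw [Finset.sum_mul, Finset.sum_mul]
  refine Finset.sum_le_sum fun δ _ => ?_
  rw [norm_smul, Real.norm_eq_abs]
  have h5 : ‖(Ψ (Pi.single δ 1)).1 y‖ ≤
      ‖LinearMap.toContinuousLinearMap (Ψ (Pi.single δ 1)).1‖ * ‖y‖ :=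
    (LinearMap.toContinuousLinearMap (Ψ (Pi.single δ 1)).1).le_opNorm y
  have h6 : |LinearMap.trace ℝ Y (τ (g * δ.1))| ≤ ∑ δ ∈ s, |LinearMap.trace ℝ Y (τ (g * δ))| :=
    Finset.single_le_sum (f := fun δ => |LinearMap.trace ℝ Y (τ (g * δ))|)
      (fun _ _ => abs_nonneg _) δ.2
  calc |LinearMap.trace ℝ Y (τ (g * δ.1))| * ‖(Ψ (Pi.single δ 1)).1 y‖
      ≤ (∑ δ ∈ s, |LinearMap.trace ℝ Y (τ (g * δ))|) *
        (‖LinearMap.toContinuousLinearMap (Ψ (Pi.single δ 1)).1‖ * ‖y‖) :=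
        mul_le_mul h6 h5 (norm_nonneg _) ((abs_nonneg _).trans h6)
    _ = ‖LinearMap.toContinuousLinearMap (Ψ (Pi.single δ 1)).1‖ *
        (∑ δ ∈ s, |LinearMap.trace ℝ Y (τ (g * δ))|) * ‖y‖ := by ring

end Pool.Agent.Helper47.HP
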