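import Pool.Agent.Helper47.HP.Trace
import Pool.Agent.Helper47.HP.Irr

/-! # Project HP: bounds on irreducible quotients -/

set_option autoImplicit false

open Set

namespace Pool.Agent.Helper47.HP

/-- The representation of `Γ` on `U / T`. -/
private noncomputable def qbd_rep {E : Type*} [NormedAddCommGroup E] [NormedSpace ℝ E]
    (Γ : Subgroup (E ≃ᵃ[ℝ] E)) (T U : Submodule ℝ E)
    (hT : ∀ g : Γ, ∀ u ∈ T, g.1.linear u ∈ T) (hU : ∀ g : Γ, ∀ u ∈ U, g.1.linear u ∈ U) :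
    Γ →* ((U ⧸ T.submoduleOf U) →ₗ[ℝ] (U ⧸ T.submoduleOf U)) where
  toFun g := qMap T U g.1.linear.toLinearMap (hU g) (hT g)
  map_one' := by
    apply LinearMap.ext
    intro y
    obtain ⟨u, rfl⟩ := (T.submoduleOf U).mkQ_surjective y
    rw [qMap_mk]
    rfl
  map_mul' g h := by
    apply LinearMap.ext
    intro y
    obtain ⟨u, rfl⟩ := (T.submoduleOf U).mkQ_surjective y
    rw [Module.End.mul_apply, qMap_mk, qMap_mk, qMap_mk]
    rfl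

private theorem qbd_rep_mk {E : Type*} [NormedAddCommGroup E] [NormedSpace ℝ E]
    (Γ : Subgroup (E ≃ᵃ[ℝ] E)) (T U : Submodule ℝ E)
    (hT : ∀ g : Γ, ∀ u ∈ T, g.1.linear u ∈ T) (hU : ∀ g : Γ, ∀ u ∈ U, g.1.linear u ∈ U)
    (g : Γ) (v : E) (hv : v ∈ U) :
    qbd_rep Γ T U hT hU g ((T.submoduleOf U).mkQ ⟨v, hv⟩)
      = (T.submoduleOf U).mkQ ⟨g.1.linear v, hU g v hv⟩ := rfl

private theorem qbd_irr {E : Type*} [NormedAddCommGroup E] [NormedSpace ℝ E]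
    (Γ : Subgroup (E ≃ᵃ[ℝ] E)) (T U : Submodule ℝ E) (hTU : T ≤ U)
    (hT : ∀ g : Γ, ∀ u ∈ T, g.1.linear u ∈ T) (hU : ∀ g : Γ, ∀ u ∈ U, g.1.linear u ∈ U)
    (hirr : ∀ S : Submodule ℝ E, T ≤ S → S ≤ U → (∀ g : Γ, ∀ v ∈ S, g.1.linear v ∈ S) →
      S = T ∨ S = U)
    (S : Submodule ℝ (U ⧸ T.submoduleOf U)) (hS : ∀ g, ∀ y ∈ S, qbd_rep Γ T U hT hU g y ∈ S) :
    S = ⊥ ∨ S = ⊤ := by
  set S' : Submodule ℝ E := (S.comap (T.submoduleOf U).mkQ).map U.subtype with hS'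
  have hmem : ∀ v (hv : v ∈ U), v ∈ S' ↔ (T.submoduleOf U).mkQ ⟨v, hv⟩ ∈ S := by
    intro v hv
    constructor
    · rintro ⟨u, hu, rfl⟩
      exact hu
    · intro h
      exact ⟨⟨v, hv⟩, h, rfl⟩
  have h1 : S' ≤ U := by
    rintro _ ⟨u, _, rfl⟩
    exact u.2
  have h2 : T ≤ S' := by
    intro v hv
    rw [hmem v (hTU hv)]
    have : (T.submoduleOf U).mkQ ⟨v, hTU hv⟩ = 0 := by
      rw [Submodule.mkQ_apply, Submodule.Quotient.mk_eq_zero]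
      exact hv
    rw [this]
    exact S.zero_mem
  have h3 : ∀ g : Γ, ∀ v ∈ S', g.1.linear v ∈ S' := by
    intro g v hv
    have hvU := h1 hv
    rw [hmem v hvU] at hv
    rw [hmem _ (hU g v hvU)]
    exact hS g _ hv
  rcases hirr S' h2 h1 h3 with h | h
  · left
    rw [Submodule.eq_bot_iff]
    intro y hy
    obtain ⟨u, rfl⟩ := (T.submoduleOf U).mkQ_surjective y
    have hu : u.1 ∈ S' := (hmem u.1 u.2).2 hy
    rw [h] at hu
    rw [Submodule.mkQ_apply, Submodule.Quotient.mk_eq_zero]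
    exact hu
  · right
    rw [Submodule.eq_top_iff']
    intro y
    obtain ⟨u, rfl⟩ := (T.submoduleOf U).mkQ_surjective y
    have hu : u.1 ∈ S' := by
      rw [h]
      exact u.2
    exact (hmem u.1 u.2).1 hu

theorem quot_bdd {E : Type*} [NormedAddCommGroup E] [NormedSpace ℝ E] [FiniteDimensional ℝ E]
    (Γ : Subgroup (E ≃ᵃ[ℝ] E)) (V W T U : Submodule ℝ E) (hWT : W ≤ T) (hTU : T ≤ U) (hUV : U ≤ V)
    (hT : ∀ g : Γ, ∀ u ∈ T, g.1.linear u ∈ T) (hU : ∀ g : Γ, ∀ u ∈ U, g.1.linear u ∈ U)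
    (hirr : ∀ S : Submodule ℝ E, T ≤ S → S ≤ U → (∀ g : Γ, ∀ v ∈ S, g.1.linear v ∈ S) →
      S = T ∨ S = U)
    (B : ℝ → Γ → Prop) (hB : ∀ δ : Γ, ∀ R, ∃ R', ∀ g, B R g → B R' (g * δ))
    (hBi : ∀ R g, B R g → B R g⁻¹)
    (hK : ∀ R, ∃ C : ℝ, 0 ≤ C ∧ ∀ g : Γ, B R g → ∃ K, IsBody V W K ∧
      ∀ v ∈ K, ∃ u ∈ K, g.1.linear v = C • u) (R : ℝ) :
    ∃ R' : ℝ, ∀ g : Γ, B R g → ∀ v ∈ U, ∃ a ∈ T, ∃ a' ∈ T,
      ‖g.1.linear v - a‖ ≤ R' * ‖v‖ ∧ ‖(g.1)⁻¹.linear v - a'‖ ≤ R' * ‖v‖ := by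
  classical
  have hcl : IsClosed ((T.submoduleOf U : Submodule ℝ U) : Set U) :=
    (T.submoduleOf U).closed_of_finiteDimensional
  obtain ⟨s, M, hM, hbound⟩ := irr_bound (qbd_rep Γ T U hT hU)
    (qbd_irr Γ T U hTU hT hU hirr)
  choose Rf hRf using fun δ : Γ => hB δ R
  choose Cf hCf hKf using fun δ : Γ => hK (Rf δ)
  set n : ℝ := ((Module.finrank ℝ (U ⧸ T.submoduleOf U) : ℕ) : ℝ) with hn
  have hn0 : 0 ≤ n := Nat.cast_nonneg _
  set R₀ : ℝ := M * (∑ δ ∈ s, Cf δ * n) with hR₀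
  have hR₀0 : 0 ≤ R₀ := mul_nonneg hM (Finset.sum_nonneg fun δ _ => mul_nonneg (hCf δ) hn0)
  have hkey : ∀ g : Γ, B R g → ∀ y, ‖qbd_rep Γ T U hT hU g y‖ ≤ R₀ * ‖y‖ := by
    intro g hg y
    refine (hbound g y).trans ?_
    refine mul_le_mul_of_nonneg_right ?_ (norm_nonneg _)
    refine mul_le_mul_of_nonneg_left ?_ hM
    refine Finset.sum_le_sum fun δ _ => ?_
    obtain ⟨K, hKb, hKC⟩ := hKf δ (g * δ) (hRf δ g hg)
    exact body_trace hKb hWT hTU hUV (g * δ).1.linear.toLinearMap (hU (g * δ)) (hT (g * δ))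
      (hCf δ) hKC
  have hrep : ∀ g : Γ, B R g → ∀ v ∈ U, ∃ a ∈ T, ‖g.1.linear v - a‖ ≤ (R₀ + 1) * ‖v‖ := by
    intro g hg v hv
    by_cases hv0 : v = 0
    · refine ⟨0, T.zero_mem, ?_⟩
      rw [hv0, map_zero, sub_zero, norm_zero, mul_zero]
    · have hpos : 0 < ‖v‖ := norm_pos_iff.2 hv0
      obtain ⟨m, hm, hlt⟩ := Submodule.Quotient.norm_mk_lt
        ((T.submoduleOf U).mkQ ⟨g.1.linear v, hU g v hv⟩) hpos
      have h1 : ‖(T.submoduleOf U).mkQ ⟨g.1.linear v, hU g v hv⟩‖ ≤ R₀ * ‖v‖ := by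
        rw [← qbd_rep_mk Γ T U hT hU g v hv]
        refine (hkey g hg _).trans (mul_le_mul_of_nonneg_left ?_ hR₀0)
        exact Submodule.Quotient.norm_mk_le (T.submoduleOf U) (⟨v, hv⟩ : U)
      refine ⟨g.1.linear v - m.1, ?_, ?_⟩
      · rw [Submodule.mkQ_apply, Submodule.Quotient.eq] at hm
        have h2 : (m - ⟨g.1.linear v, hU g v hv⟩ : U).1 ∈ T := hm
        have h3 := T.neg_mem h2
        have h4 : -(m - ⟨g.1.linear v, hU g v hv⟩ : U).1 = g.1.linear v - m.1 := by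
          simp
        rw [h4] at h3
        exact h3
      · rw [sub_sub_cancel]
        have h5 : ‖m.1‖ = ‖m‖ := rfl
        rw [h5]
        linarith
  refine ⟨R₀ + 1, fun g hg v hv => ?_⟩
  obtain ⟨a, ha, h1⟩ := hrep g hg v hv
  obtain ⟨a', ha', h2⟩ := hrep g⁻¹ (hBi R g hg) v hv
  exact ⟨a, ha, a', ha', h1, h2⟩

end Pool.Agent.Helper47.HP
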