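import Pool.Agent.Helper47.HP.Defs

/-! # Project HP: the points `g⁻¹ x₀` stay in a compact part of `X / V` -/

set_option autoImplicit false

open Set

namespace Pool.Agent.Helper47.HP

variable {E : Type*} [NormedAddCommGroup E] [NormedSpace ℝ E] (P : Pot E)

/-- the linear part of a bounded affine map is bounded modulo `V` -/
theorem lam_lin {V : Submodule ℝ E} {R : ℝ} {g : E ≃ᵃ[ℝ] E}
    (h : ABdd V R g) (b : E) : ∃ v ∈ V, ‖g.linear b - v‖ ≤ 3 * R * ‖b‖ := by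
  rcases eq_or_ne b 0 with rfl | hb
  · exact ⟨0, V.zero_mem, by simp⟩
  · have he : 0 < ‖b‖ := norm_pos_iff.2 hb
    obtain ⟨x1, hx1⟩ : ∃ x1 : E, x1 = ‖b‖⁻¹ • b := ⟨_, rfl⟩
    have hn : ‖x1‖ = 1 := by
      rw [hx1, norm_smul, norm_inv, norm_norm, inv_mul_cancel₀ he.ne']
    obtain ⟨v1, hv1, _, _, h1, _⟩ := h x1
    obtain ⟨v0, hv0, _, _, h0, _⟩ := h 0
    have hg : g x1 = g.linear x1 + g 0 := by
      have := g.map_vadd 0 x1
      simpa using this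
    have hb1 : b = ‖b‖ • x1 := by
      rw [hx1, smul_smul, mul_inv_cancel₀ he.ne', one_smul]
    refine ⟨‖b‖ • (v1 - v0), V.smul_mem _ (V.sub_mem hv1 hv0), ?_⟩
    have h2 : g.linear b - ‖b‖ • (v1 - v0) = ‖b‖ • ((g x1 - v1) - (g 0 - v0)) := by
      have h3 : g.linear b = ‖b‖ • g.linear x1 := by
        conv_lhs => rw [hb1]
        exact map_smul g.linear _ _
      rw [h3, hg]
      simp only [smul_sub, smul_add]
      abel
    rw [h2, norm_smul, norm_norm]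
    have h4 : ‖(g x1 - v1) - (g 0 - v0)‖ ≤ 3 * R := by
      refine (norm_sub_le _ _).trans ?_
      rw [hn] at h1
      rw [norm_zero] at h0
      linarith
    calc ‖b‖ * ‖(g x1 - v1) - (g 0 - v0)‖ ≤ ‖b‖ * (3 * R) :=
          mul_le_mul_of_nonneg_left h4 he.le
      _ = 3 * R * ‖b‖ := by ring

theorem Pot.exists_lam {x₀ : E} (hx₀ : x₀ ∈ P.X) (R : ℝ) :
    ∃ l : ℝ, 0 < l ∧ l < 1 ∧ ∀ g : E ≃ᵃ[ℝ] E, (∀ x ∈ P.X, g x ∈ P.X) →
      (∀ x ∈ P.X, g⁻¹ x ∈ P.X) → ABdd P.V R g → x₀ + l⁻¹ • (g⁻¹ x₀ - x₀) ∈ P.X := by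
  obtain ⟨ρ, hρ, hball⟩ := Metric.isOpen_iff.1 P.isOpen x₀ hx₀
  obtain ⟨R', hR'⟩ : ∃ R' : ℝ, R' = max R 1 := ⟨_, rfl⟩
  have hR1 : 1 ≤ R' := hR' ▸ le_max_right _ _
  have hRR : R ≤ R' := hR' ▸ le_max_left _ _
  have hR0 : 0 < R' := by linarith
  obtain ⟨M, hM⟩ : ∃ M : ℝ, M = R' * (1 + ‖x₀‖) + ‖x₀‖ := ⟨_, rfl⟩
  have hx0n : 0 ≤ ‖x₀‖ := norm_nonneg _
  have hM0 : 0 < M := by
    rw [hM]
    positivity
  obtain ⟨k, hk⟩ : ∃ k : ℝ, k = ρ / (4 * R' * M) := ⟨_, rfl⟩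
  have hk0 : 0 < k := by
    rw [hk]
    positivity
  refine ⟨(1 + k)⁻¹, by positivity, inv_lt_one_of_one_lt₀ (by linarith), ?_⟩
  intro g _ hg' hb
  rw [inv_inv]
  -- points near `g⁻¹ x₀`
  have hnear : ∀ b : E, ‖b‖ ≤ ρ / (4 * R') → g⁻¹ x₀ + b ∈ P.X := by
    intro b hbn
    obtain ⟨v, hv, hvn⟩ := lam_lin hb b
    have h1 : ‖g.linear b - v‖ < ρ := by
      have h2 : 3 * R * ‖b‖ ≤ 3 * R' * (ρ / (4 * R')) := by
        have h3 : 3 * R * ‖b‖ ≤ 3 * R' * ‖b‖ :=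
          mul_le_mul_of_nonneg_right (by linarith) (norm_nonneg _)
        exact h3.trans (mul_le_mul_of_nonneg_left hbn (by positivity))
      have h4 : 3 * R' * (ρ / (4 * R')) = 3 / 4 * ρ := by
        field_simp
      linarith
    have h5 : x₀ + (g.linear b - v) ∈ P.X := by
      apply hball
      rw [Metric.mem_ball, dist_eq_norm, add_sub_cancel_left]
      exact h1
    have h6 : x₀ + g.linear b ∈ P.X := by
      have h7 := (P.mem_V v).1 hv _ h5 1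
      rw [one_smul] at h7
      have h8 : x₀ + (g.linear b - v) + v = x₀ + g.linear b := by abel
      rwa [h8] at h7
    have h9 := hg' _ h6
    have h10 : g⁻¹ (x₀ + g.linear b) = g⁻¹ x₀ + b := by
      have h11 : g (g⁻¹ x₀ + b) = x₀ + g.linear b := by
        have h12 := g.map_vadd (g⁻¹ x₀) b
        have h13 : g (g⁻¹ x₀) = x₀ := g.apply_symm_apply x₀
        rw [h13] at h12
        simp only [vadd_eq_add] at h12
        rw [add_comm (g⁻¹ x₀) b, h12, add_comm]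
      rw [← h11]
      exact g.symm_apply_apply _
    rwa [h10] at h9
  obtain ⟨_, _, v', hv', _, hb'⟩ := hb x₀
  have hb2 : ‖k • (g⁻¹ x₀ - v' - x₀)‖ ≤ ρ / (4 * R') := by
    rw [norm_smul, Real.norm_of_nonneg hk0.le]
    have h1 : ‖g⁻¹ x₀ - v' - x₀‖ ≤ M := by
      refine (norm_sub_le _ _).trans ?_
      rw [hM]
      have h2 : R * (1 + ‖x₀‖) ≤ R' * (1 + ‖x₀‖) :=
        mul_le_mul_of_nonneg_right hRR (by linarith)
      linarith
    have h3 : k * M = ρ / (4 * R') := by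
      rw [hk]
      field_simp
    rw [← h3]
    exact mul_le_mul_of_nonneg_left h1 hk0.le
  have h1 := hnear _ hb2
  have h2 := (P.mem_V v').1 hv' _ h1 k
  have h3 : g⁻¹ x₀ + k • (g⁻¹ x₀ - v' - x₀) + k • v' = x₀ + (1 + k) • (g⁻¹ x₀ - x₀) := by
    module
  rwa [h3] at h2

end Pool.Agent.Helper47.HP
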