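import Pool.Agent.Helper47.HP.Ineq
import Pool.Agent.Helper47.HP.Lam

/-! # Project HP: the main lemma -/

set_option autoImplicit false

open Set

namespace Pool.Agent.Helper47.HP

variable {E : Type*} [NormedAddCommGroup E] [NormedSpace ℝ E] [FiniteDimensional ℝ E] (P : Pot E)

omit [FiniteDimensional ℝ E] in
private theorem body_add_mem {x v : E} (hx : x ∈ P.X) (hv : v ∈ P.V) : x + v ∈ P.X := by
  have h := (P.mem_V v).1 hv x hx 1
  simpa using h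

omit [FiniteDimensional ℝ E] in
private theorem body_psi_zero (x₀ : E) (p : E →ₗ[ℝ] ℝ) : P.psi x₀ p 0 = 0 := by
  simp [Pot.psi]

omit [FiniteDimensional ℝ E] in
private theorem body_psi_conv {x₀ : E} (hx₀ : x₀ ∈ P.X) (p : E →ₗ[ℝ] ℝ) {v w : E}
    (hv : v ∈ P.V) (hw : w ∈ P.V) {a b : ℝ} (ha : 0 ≤ a) (hb : 0 ≤ b) (hab : a + b = 1) :
    P.psi x₀ p (a • v + b • w) ≤ a * P.psi x₀ p v + b * P.psi x₀ p w := by
  have h := P.conv.2 (body_add_mem P hx₀ hv) (body_add_mem P hx₀ hw) ha hb hab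
  have e : a • (x₀ + v) + b • (x₀ + w) = x₀ + (a • v + b • w) := by
    have : b = 1 - a := by linarith
    subst this
    module
  rw [e] at h
  simp only [smul_eq_mul] at h
  have e2 : p (a • v + b • w) = a * p v + b * p w := by
    simp
  have e3 : P.φ x₀ = a * P.φ x₀ + b * P.φ x₀ := by
    rw [← add_mul, hab, one_mul]
  unfold Pot.psi
  rw [e2]
  nlinarith [h, e3]

omit [FiniteDimensional ℝ E] in
private theorem body_psi_smul {x₀ : E} (hx₀ : x₀ ∈ P.X) (p : E →ₗ[ℝ] ℝ) {v : E}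
    (hv : v ∈ P.V) {t : ℝ} (ht : 0 ≤ t) (ht1 : t ≤ 1) :
    P.psi x₀ p (t • v) ≤ t * P.psi x₀ p v := by
  have h := body_psi_conv P hx₀ p hv (P.V.zero_mem) ht (sub_nonneg.2 ht1) (by ring)
  rw [smul_zero, add_zero, body_psi_zero, mul_zero, add_zero] at h
  exact h

omit [FiniteDimensional ℝ E] in
private theorem body_flat (W : Submodule ℝ E) (hW : P.IsFlat W) {x₀ : E} (hx₀ : x₀ ∈ P.X)
    (p : E →ₗ[ℝ] ℝ) (hp : P.Supp p) {w : E} (hw : w ∈ W) :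
    P.psi x₀ p w = 0 ∧ P.psi x₀ p (-w) = 0 := by
  obtain ⟨hwV, τ, hτ⟩ := (hW w).1 hw
  obtain ⟨h1, h2⟩ := P.epi_of_flat hwV hτ
  have h3 : p w = τ := (hp _ h1).2 h2
  have h4 := hτ x₀ hx₀ 1
  have h5 := hτ x₀ hx₀ (-1)
  rw [one_smul] at h4
  rw [neg_one_smul] at h5
  unfold Pot.psi
  rw [h4, h5, map_neg, h3]
  constructor <;> ring

theorem Pot.exists_body_of_ineq (W : Submodule ℝ E) (hW : P.IsFlat W) {x₀ : E} (hx₀ : x₀ ∈ P.X)
    (p : E →ₗ[ℝ] ℝ) (hp : P.Supp p) (A : E →ₗ[ℝ] E) (hA : ∀ v ∈ P.V, A v ∈ P.V) {l κ c : ℝ}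
    (hl0 : 0 < l) (hl1 : l < 1) (hκ : 0 ≤ κ)
    (h : ∀ w ∈ P.V, P.psi x₀ p (A ((1 - l) • w)) ≤ κ * P.psi x₀ p w + c) :
    ∃ K, IsBody P.V W K ∧ ∀ v ∈ K, ∃ u ∈ K, A v = ((κ + 1) / (1 - l)) • u := by
  obtain ⟨r, hr1, hrc⟩ : ∃ r : ℝ, 1 ≤ r ∧ c ≤ r := ⟨max c 1, le_max_right _ _, le_max_left _ _⟩
  have hl1' : 0 < 1 - l := sub_pos.2 hl1
  have hκ1 : 0 < κ + 1 := by linarith
  -- the key estimate
  have key : ∀ w ∈ P.V, P.psi x₀ p w ≤ r →
      P.psi x₀ p ((κ + 1)⁻¹ • A ((1 - l) • w)) ≤ r := by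
    intro w hw hwr
    have h1 := h w hw
    have h2 : P.psi x₀ p (A ((1 - l) • w)) ≤ (κ + 1) * r := by
      nlinarith [mul_le_mul_of_nonneg_left hwr hκ]
    have h3 : A ((1 - l) • w) ∈ P.V := hA _ (P.V.smul_mem _ hw)
    have h4 := body_psi_smul P hx₀ p h3 (inv_nonneg.2 hκ1.le)
      (inv_le_one_of_one_le₀ (by linarith : (1 : ℝ) ≤ κ + 1))
    refine h4.trans ?_
    calc (κ + 1)⁻¹ * P.psi x₀ p (A ((1 - l) • w)) ≤ (κ + 1)⁻¹ * ((κ + 1) * r) :=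
          mul_le_mul_of_nonneg_left h2 (inv_nonneg.2 hκ1.le)
      _ = r := by rw [← mul_assoc, inv_mul_cancel₀ hκ1.ne', one_mul]
  refine ⟨{v | v ∈ P.V ∧ P.psi x₀ p v ≤ r ∧ P.psi x₀ p (-v) ≤ r}, ?_, ?_⟩
  · refine ⟨fun v hv => hv.1, ?_, ?_, ?_, ?_, ?_⟩
    · intro v hv w hw a b ha hb hab
      refine ⟨P.V.add_mem (P.V.smul_mem _ hv.1) (P.V.smul_mem _ hw.1), ?_, ?_⟩
      · have h1 := body_psi_conv P hx₀ p hv.1 hw.1 ha hb hab
        have h2 := mul_le_mul_of_nonneg_left hv.2.1 ha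
        have h3 := mul_le_mul_of_nonneg_left hw.2.1 hb
        have h4 : a * r + b * r = r := by rw [← add_mul, hab, one_mul]
        linarith
      · have h1 := body_psi_conv P hx₀ p (P.V.neg_mem hv.1) (P.V.neg_mem hw.1) ha hb hab
        have e : a • (-v) + b • (-w) = -(a • v + b • w) := by module
        rw [e] at h1
        have h2 := mul_le_mul_of_nonneg_left hv.2.2 ha
        have h3 := mul_le_mul_of_nonneg_left hw.2.2 hb
        have h4 : a * r + b * r = r := by rw [← add_mul, hab, one_mul]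
        linarith
    · intro v hv
      refine ⟨P.V.neg_mem hv.1, hv.2.2, ?_⟩
      rw [neg_neg]
      exact hv.2.1
    · intro w hw
      obtain ⟨h1, h2⟩ := body_flat P W hW hx₀ p hp hw
      refine ⟨((hW w).1 hw).1, ?_, ?_⟩
      · rw [h1]; linarith
      · rw [h2]; linarith
    · intro v hv
      set M : ℝ := 1 + |P.psi x₀ p v| + |P.psi x₀ p (-v)| with hM
      have hM1 : 1 ≤ M := by
        have := abs_nonneg (P.psi x₀ p v)
        have := abs_nonneg (P.psi x₀ p (-v))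
        linarith
      have hM0 : 0 < M := by linarith
      have aux : ∀ u ∈ P.V, P.psi x₀ p u ≤ M → P.psi x₀ p (M⁻¹ • u) ≤ r := by
        intro u hu huM
        have h4 := body_psi_smul P hx₀ p hu (inv_nonneg.2 hM0.le)
          (inv_le_one_of_one_le₀ hM1)
        refine h4.trans ?_
        have h5 := mul_le_mul_of_nonneg_left huM (inv_nonneg.2 hM0.le)
        rw [inv_mul_cancel₀ hM0.ne'] at h5
        linarith
      refine ⟨M⁻¹, inv_pos.2 hM0, P.V.smul_mem _ hv, ?_, ?_⟩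
      · refine aux v hv ?_
        have := le_abs_self (P.psi x₀ p v)
        have := abs_nonneg (P.psi x₀ p (-v))
        linarith
      · rw [← smul_neg]
        refine aux (-v) (P.V.neg_mem hv) ?_
        have := le_abs_self (P.psi x₀ p (-v))
        have := abs_nonneg (P.psi x₀ p v)
        linarith
    · obtain ⟨ϱ, hϱ⟩ := P.sublevel_bdd W hW hx₀ p hp (r + P.φ x₀)
      refine ⟨ϱ, fun v hv => hϱ v hv.1 ?_⟩
      have := hv.2.1
      unfold Pot.psi at this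
      linarith
  · intro v hv
    refine ⟨(κ + 1)⁻¹ • A ((1 - l) • v), ⟨P.V.smul_mem _ (hA _ (P.V.smul_mem _ hv.1)),
      key v hv.1 hv.2.1, ?_⟩, ?_⟩
    · have h1 := key (-v) (P.V.neg_mem hv.1) hv.2.2
      rw [smul_neg, map_neg, smul_neg] at h1
      exact h1
    · rw [map_smul, smul_smul, smul_smul]
      have e : (κ + 1) / (1 - l) * (κ + 1)⁻¹ * (1 - l) = 1 := by
        field_simp
      rw [e, one_smul]

/-- The main lemma. -/
theorem Pot.exists_body (W : Submodule ℝ E) (hW : P.IsFlat W) {x₀ : E} (hx₀ : x₀ ∈ P.X)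
    (p : E →ₗ[ℝ] ℝ) (hp : P.Supp p) (R C' : ℝ) :
    ∃ C : ℝ, 0 ≤ C ∧ ∀ (g : E ≃ᵃ[ℝ] E) (a : E →ᵃ[ℝ] ℝ), (∀ x ∈ P.X, g x ∈ P.X) →
      (∀ x ∈ P.X, g⁻¹ x ∈ P.X) → (∀ x ∈ P.X, P.φ (g x) = P.φ x + a x) → ABdd P.V R g →
      (∀ e ∈ P.epi, e.2 + a.linear e.1 - p (g.linear e.1) ≤ C' * (e.2 - p e.1)) →
      ∃ K, IsBody P.V W K ∧ ∀ v ∈ K, ∃ u ∈ K, g.linear v = C • u := by
  obtain ⟨l, hl0, hl1, hl⟩ := P.exists_lam hx₀ R
  obtain ⟨M, hM1, hMC⟩ : ∃ M : ℝ, 1 ≤ M ∧ C' ≤ M :=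
    ⟨max C' 1, le_max_right _ _, le_max_left _ _⟩
  have hl1' : 0 < 1 - l := sub_pos.2 hl1
  have hM0 : 0 < M := by linarith
  obtain ⟨m, hm⟩ : ∃ m : ℝ, m = 1 - (2 * M)⁻¹ := ⟨_, rfl⟩
  have h2M : 0 < (2 * M)⁻¹ := inv_pos.2 (by linarith)
  have h2M' : (2 * M)⁻¹ * (2 * M) = 1 := inv_mul_cancel₀ (by linarith : (2 : ℝ) * M ≠ 0)
  have hm1 : m < 1 := by rw [hm]; linarith
  have hm1' : 1 - m = (2 * M)⁻¹ := by rw [hm]; ring
  have hm0 : 0 < m := by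
    rw [hm]
    nlinarith
  have hmC : (1 - m) * C' < 1 := by
    rw [hm1']
    nlinarith [mul_le_mul_of_nonneg_left hMC h2M.le]
  have hκ : 0 ≤ (1 - l) / (1 - m) := div_nonneg hl1'.le (by linarith)
  refine ⟨((1 - l) / (1 - m) + 1) / (1 - l), div_nonneg (by linarith) hl1'.le, ?_⟩
  intro g a hg hg' ha hR hC
  have hz := hl g hg hg' hR
  obtain ⟨c, hc⟩ := P.main_ineq W hW hx₀ p hp g a hg hg' ha hl0 hl1 hz hm0 hm1 hmC hC
  have hA : ∀ v ∈ P.V, (g.linear : E →ₗ[ℝ] E) v ∈ P.V := by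
    intro v hv
    rw [P.mem_V]
    intro x hx t
    have h1 : g⁻¹ x + t • v ∈ P.X := (P.mem_V v).1 hv _ (hg' x hx) t
    have h2 := hg _ h1
    have h3 : g (g⁻¹ x + t • v) = x + t • (g.linear : E →ₗ[ℝ] E) v := by
      have h4 : g⁻¹ x + t • v = t • v +ᵥ g⁻¹ x := by
        rw [vadd_eq_add, add_comm]
      rw [h4, g.map_vadd]
      have h5 : g (g⁻¹ x) = x := by
        rw [AffineEquiv.inv_def]
        exact g.apply_symm_apply x
      rw [h5, vadd_eq_add, map_smul, add_comm]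
      rfl
    rw [← h3]
    exact h2
  obtain ⟨K, hK, hK'⟩ := P.exists_body_of_ineq W hW hx₀ p hp (g.linear : E →ₗ[ℝ] E) hA
    (c := c) hl0 hl1 hκ (fun w hw => hc w hw)
  exact ⟨K, hK, fun v hv => hK' v hv⟩

end Pool.Agent.Helper47.HP
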