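import Pool.Agent.Helper47.HP.Defs

/-! # Project HP: products with a fixed element -/

set_option autoImplicit false

open Set

namespace Pool.Agent.Helper47.HP

private theorem clos_lin {E : Type*} [NormedAddCommGroup E] [NormedSpace ℝ E]
    [FiniteDimensional ℝ E] (L : E →ₗ[ℝ] E) : ∃ D : ℝ, 0 ≤ D ∧ ∀ x, ‖L x‖ ≤ D * ‖x‖ :=
  ⟨‖LinearMap.toContinuousLinearMap L‖, norm_nonneg _,
    fun x => (LinearMap.toContinuousLinearMap L).le_opNorm x⟩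

private theorem clos_aff_add {E : Type*} [NormedAddCommGroup E] [NormedSpace ℝ E]
    (f : E ≃ᵃ[ℝ] E) (b v : E) : f (b + v) = f b + f.linear v := by
  have h := f.map_vadd b v
  simp only [vadd_eq_add] at h
  rw [add_comm b v, h, add_comm]

private theorem clos_aff {E : Type*} [NormedAddCommGroup E] [NormedSpace ℝ E]
    [FiniteDimensional ℝ E] (f : E ≃ᵃ[ℝ] E) :
    ∃ D : ℝ, 0 ≤ D ∧ ∀ x, ‖f x‖ ≤ D * (1 + ‖x‖) := by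
  obtain ⟨D, hD, h⟩ := clos_lin (f.linear : E →ₗ[ℝ] E)
  refine ⟨D + ‖f 0‖, by positivity, fun x => ?_⟩
  have e : f x = f 0 + f.linear x := by
    have := clos_aff_add f 0 x
    rwa [zero_add] at this
  have h1 : ‖f.linear x‖ ≤ D * ‖x‖ := h x
  have h2 : ‖f x‖ ≤ ‖f 0‖ + ‖f.linear x‖ := by
    rw [e]; exact norm_add_le _ _
  have h3 : 0 ≤ ‖f 0‖ * ‖x‖ := by positivity
  nlinarith [norm_nonneg x]

theorem abdd_mul {E : Type*} [NormedAddCommGroup E] [NormedSpace ℝ E] [FiniteDimensional ℝ E]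
    (V : Submodule ℝ E) (δ : E ≃ᵃ[ℝ] E) (hδ : ∀ v ∈ V, δ⁻¹.linear v ∈ V) (R : ℝ) :
    ∃ R' : ℝ, ∀ g : E ≃ᵃ[ℝ] E, ABdd V R g → ABdd V R' (g * δ) := by
  obtain ⟨D₁, hD₁, h₁⟩ := clos_aff δ
  obtain ⟨D₂, hD₂, h₂⟩ := clos_aff δ⁻¹
  refine ⟨(1 + |R|) * (1 + D₁ + D₂), fun g hg x => ?_⟩
  have hR := abs_nonneg R
  have hx := norm_nonneg x
  obtain ⟨v, hv, -, -, hv1, -⟩ := hg (δ x)
  obtain ⟨-, -, v', hv', -, hv2⟩ := hg x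
  refine ⟨v, hv, δ⁻¹.linear v', hδ v' hv', ?_, ?_⟩
  · have e : (g * δ) x = g (δ x) := rfl
    rw [e]
    have a1 : ‖g (δ x) - v‖ ≤ |R| * (1 + ‖δ x‖) :=
      hv1.trans (mul_le_mul_of_nonneg_right (le_abs_self R) (by positivity))
    have a2 : |R| * (1 + ‖δ x‖) ≤ |R| * (1 + D₁ * (1 + ‖x‖)) :=
      mul_le_mul_of_nonneg_left (by linarith [h₁ x]) hR
    refine (a1.trans a2).trans ?_
    have b1 : 1 + D₁ * (1 + ‖x‖) ≤ (1 + D₁ + D₂) * (1 + ‖x‖) := by nlinarith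
    have b2 : 0 ≤ (1 + D₁ + D₂) * (1 + ‖x‖) := by positivity
    calc |R| * (1 + D₁ * (1 + ‖x‖)) ≤ |R| * ((1 + D₁ + D₂) * (1 + ‖x‖)) :=
          mul_le_mul_of_nonneg_left b1 hR
      _ ≤ (1 + |R|) * ((1 + D₁ + D₂) * (1 + ‖x‖)) :=
          mul_le_mul_of_nonneg_right (by linarith) b2
      _ = _ := by ring
  · have e : (g * δ)⁻¹ x = δ⁻¹ (g⁻¹ x) := by
      rw [mul_inv_rev]; rfl
    have e2 : δ⁻¹ (g⁻¹ x) = δ⁻¹ (g⁻¹ x - v') + δ⁻¹.linear v' := by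
      rw [← clos_aff_add, sub_add_cancel]
    rw [e, e2, add_sub_cancel_right]
    have a1 : ‖g⁻¹ x - v'‖ ≤ |R| * (1 + ‖x‖) :=
      hv2.trans (mul_le_mul_of_nonneg_right (le_abs_self R) (by positivity))
    have a2 : ‖δ⁻¹ (g⁻¹ x - v')‖ ≤ D₂ * (1 + |R| * (1 + ‖x‖)) :=
      (h₂ _).trans (mul_le_mul_of_nonneg_left (by linarith) hD₂)
    refine a2.trans ?_
    have b1 : 1 + |R| * (1 + ‖x‖) ≤ (1 + |R|) * (1 + ‖x‖) := by nlinarith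
    have b2 : 0 ≤ (1 + |R|) * (1 + ‖x‖) := by positivity
    calc D₂ * (1 + |R| * (1 + ‖x‖)) ≤ D₂ * ((1 + |R|) * (1 + ‖x‖)) :=
          mul_le_mul_of_nonneg_left b1 hD₂
      _ ≤ (1 + D₁ + D₂) * ((1 + |R|) * (1 + ‖x‖)) :=
          mul_le_mul_of_nonneg_right (by linarith) b2
      _ = _ := by ring

theorem abdd_inv {E : Type*} [NormedAddCommGroup E] [NormedSpace ℝ E]
    {V : Submodule ℝ E} {R : ℝ} {g : E ≃ᵃ[ℝ] E} (h : ABdd V R g) : ABdd V R g⁻¹ := by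
  intro x
  obtain ⟨v, hv, v', hv', h1, h2⟩ := h x
  refine ⟨v', hv', v, hv, h2, ?_⟩
  rw [inv_inv]
  exact h1

theorem abdd_mono {E : Type*} [NormedAddCommGroup E] [NormedSpace ℝ E]
    {V : Submodule ℝ E} {R R' : ℝ} (hR : R ≤ R') {g : E ≃ᵃ[ℝ] E} (h : ABdd V R g) :
    ABdd V R' g := by
  intro x
  obtain ⟨v, hv, v', hv', h1, h2⟩ := h x
  have h3 : R * (1 + ‖x‖) ≤ R' * (1 + ‖x‖) := mul_le_mul_of_nonneg_right hR (by positivity)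
  exact ⟨v, hv, v', hv', h1.trans h3, h2.trans h3⟩

/-- The same as `Pool.AF.ScalBdd`. -/
def SBdd {G : Type*} [Group G] {d : ℕ} (σ : G →* ((Fin d → ℝ) →ₗ[ℝ] (Fin d → ℝ))) (R : ℝ)
    (g : G) : Prop :=
  ∃ t : ℝ, 0 < t ∧ ∀ v, ‖t • σ g v‖ ≤ R * ‖v‖ ∧ ‖t⁻¹ • σ g⁻¹ v‖ ≤ R * ‖v‖

theorem sbdd_mul {G : Type*} [Group G] {d : ℕ} (σ : G →* ((Fin d → ℝ) →ₗ[ℝ] (Fin d → ℝ)))
    (δ : G) (R : ℝ) : ∃ R' : ℝ, ∀ g, SBdd σ R g → SBdd σ R' (g * δ) := by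
  obtain ⟨D₁, hD₁, h₁⟩ := clos_lin (σ δ)
  obtain ⟨D₂, hD₂, h₂⟩ := clos_lin (σ δ⁻¹)
  refine ⟨|R| * (D₁ + D₂), fun g hg => ?_⟩
  obtain ⟨t, ht, h⟩ := hg
  refine ⟨t, ht, fun v => ⟨?_, ?_⟩⟩
  · have e : σ (g * δ) v = σ g (σ δ v) := by rw [map_mul]; rfl
    rw [e]
    have hR := abs_nonneg R
    have a1 : ‖t • σ g (σ δ v)‖ ≤ |R| * ‖σ δ v‖ :=
      (h _).1.trans (mul_le_mul_of_nonneg_right (le_abs_self R) (norm_nonneg _))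
    have a2 : |R| * ‖σ δ v‖ ≤ |R| * (D₁ * ‖v‖) := mul_le_mul_of_nonneg_left (h₁ v) hR
    have a3 : |R| * (D₁ * ‖v‖) ≤ |R| * ((D₁ + D₂) * ‖v‖) :=
      mul_le_mul_of_nonneg_left
        (mul_le_mul_of_nonneg_right (by linarith) (norm_nonneg _)) hR
    linarith [mul_assoc |R| (D₁ + D₂) ‖v‖]
  · have e : σ (g * δ)⁻¹ v = σ δ⁻¹ (σ g⁻¹ v) := by rw [mul_inv_rev, map_mul]; rfl
    rw [e, ← map_smul]
    have hR := abs_nonneg R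
    have a1 : ‖t⁻¹ • σ g⁻¹ v‖ ≤ |R| * ‖v‖ :=
      (h _).2.trans (mul_le_mul_of_nonneg_right (le_abs_self R) (norm_nonneg _))
    have a2 : ‖σ δ⁻¹ (t⁻¹ • σ g⁻¹ v)‖ ≤ D₂ * (|R| * ‖v‖) :=
      (h₂ _).trans (mul_le_mul_of_nonneg_left a1 hD₂)
    have a3 : D₂ * (|R| * ‖v‖) ≤ (D₁ + D₂) * (|R| * ‖v‖) :=
      mul_le_mul_of_nonneg_right (by linarith) (by positivity)
    refine (a2.trans a3).trans (le_of_eq (by ring))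

theorem sbdd_inv {G : Type*} [Group G] {d : ℕ} {σ : G →* ((Fin d → ℝ) →ₗ[ℝ] (Fin d → ℝ))}
    {R : ℝ} {g : G} (h : SBdd σ R g) : SBdd σ R g⁻¹ := by
  obtain ⟨t, ht, h⟩ := h
  refine ⟨t⁻¹, inv_pos.2 ht, fun v => ⟨(h v).2, ?_⟩⟩
  rw [inv_inv, inv_inv]
  exact (h v).1

theorem sbdd_mono {G : Type*} [Group G] {d : ℕ} {σ : G →* ((Fin d → ℝ) →ₗ[ℝ] (Fin d → ℝ))}
    {R R' : ℝ} (hR : R ≤ R') {g : G} (h : SBdd σ R g) : SBdd σ R' g := by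
  obtain ⟨t, ht, h⟩ := h
  refine ⟨t, ht, fun v => ?_⟩
  have h3 : R * ‖v‖ ≤ R' * ‖v‖ := mul_le_mul_of_nonneg_right hR (norm_nonneg _)
  exact ⟨(h v).1.trans h3, (h v).2.trans h3⟩

/-- A fixed nonzero vector controls the scalar. -/
theorem sbdd_fix {G : Type*} [Group G] {d : ℕ} {σ : G →* ((Fin d → ℝ) →ₗ[ℝ] (Fin d → ℝ))}
    {R : ℝ} {g : G} (h : SBdd σ R g) (q : Fin d → ℝ) (hq : q ≠ 0) (hfix : σ g q = q) :
    ∀ v, ‖σ g v‖ ≤ R ^ 2 * ‖v‖ := by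
  obtain ⟨t, ht, h⟩ := h
  have hq' : 0 < ‖q‖ := norm_pos_iff.2 hq
  have hinv : σ g⁻¹ q = q := by
    have e : σ (g⁻¹ * g) q = σ g⁻¹ (σ g q) := by rw [map_mul]; rfl
    rw [inv_mul_cancel, map_one, hfix] at e
    exact e.symm
  have h2 : t⁻¹ ≤ R := by
    have := (h q).2
    rw [hinv, norm_smul, Real.norm_of_nonneg (inv_pos.2 ht).le] at this
    exact le_of_mul_le_mul_right this hq'
  have hR : 0 < R := lt_of_lt_of_le (inv_pos.2 ht) h2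
  intro v
  have h3 := (h v).1
  rw [norm_smul, Real.norm_of_nonneg ht.le] at h3
  have h4 : ‖σ g v‖ = t⁻¹ * (t * ‖σ g v‖) := by
    rw [← mul_assoc, inv_mul_cancel₀ ht.ne', one_mul]
  rw [h4]
  calc t⁻¹ * (t * ‖σ g v‖) ≤ R * (R * ‖v‖) :=
        mul_le_mul h2 h3 (by positivity) hR.le
    _ = R ^ 2 * ‖v‖ := by ring

end Pool.Agent.Helper47.HP
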