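import Pool.Agent.Helper47.HP.Sep

/-! # Project HP: the quotient of a closed convex cone by its lineality space -/

set_option autoImplicit false

open Set

namespace Pool.Agent.Helper47.HP

/-- The lineality space of a convex cone. -/
private def quo_lin {F : Type*} [NormedAddCommGroup F] [NormedSpace ℝ F] (S : Set F)
    (h0 : (0 : F) ∈ S) (hadd : ∀ a ∈ S, ∀ b ∈ S, a + b ∈ S)
    (hsmul : ∀ a ∈ S, ∀ t : ℝ, 0 ≤ t → t • a ∈ S) : Submodule ℝ F where
  carrier := {a | a ∈ S ∧ -a ∈ S}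
  zero_mem' := ⟨h0, by simpa using h0⟩
  add_mem' := by
    rintro a b ⟨ha, ha'⟩ ⟨hb, hb'⟩
    refine ⟨hadd a ha b hb, ?_⟩
    have h := hadd _ ha' _ hb'
    have e : -(a + b) = -a + -b := by abel
    rw [e]; exact h
  smul_mem' := by
    rintro t a ⟨ha, ha'⟩
    rcases le_total 0 t with ht | ht
    · refine ⟨hsmul a ha t ht, ?_⟩
      have h := hsmul _ ha' t ht
      rwa [smul_neg] at h
    · have ht' : 0 ≤ -t := by linarith
      refine ⟨?_, ?_⟩
      · have h := hsmul _ ha' (-t) ht'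
        rwa [smul_neg, neg_smul, neg_neg] at h
      · have h := hsmul _ ha (-t) ht'
        rwa [neg_smul] at h

/-- Coordinates on the quotient `T / L`, extended to the whole space, with a section. -/
private theorem quo_coord {F : Type*} [NormedAddCommGroup F] [NormedSpace ℝ F]
    [FiniteDimensional ℝ F] (L T : Submodule ℝ F) (hLT : L ≤ T) :
    ∃ (d : ℕ) (π : F →ₗ[ℝ] (Fin d → ℝ)) (s : (Fin d → ℝ) → F),
      (∀ v, s v ∈ T) ∧ (∀ v, π (s v) = v) ∧ (∀ x ∈ T, π x = 0 ↔ x ∈ L) ∧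
      d + Module.finrank ℝ L = Module.finrank ℝ T := by
  classical
  set N : Submodule ℝ T := L.submoduleOf T with hN
  set b := Module.finBasis ℝ (T ⧸ N) with hb
  obtain ⟨π, hπ⟩ := LinearMap.exists_extend
    (b.equivFun.toLinearMap ∘ₗ N.mkQ : T →ₗ[ℝ] (Fin (Module.finrank ℝ (T ⧸ N)) → ℝ))
  have hπT : ∀ x : T, π (x : F) = b.equivFun (N.mkQ x) := by
    intro x
    have h := LinearMap.congr_fun hπ x
    exact h
  have hsurj : ∀ v : Fin (Module.finrank ℝ (T ⧸ N)) → ℝ, ∃ x : T, π (x : F) = v := by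
    intro v
    obtain ⟨x, hx⟩ := N.mkQ_surjective (b.equivFun.symm v)
    refine ⟨x, ?_⟩
    rw [hπT, hx]
    exact b.equivFun.apply_symm_apply v
  choose s hs using hsurj
  refine ⟨Module.finrank ℝ (T ⧸ N), π, fun v => (s v : F), fun v => (s v).2, hs, ?_, ?_⟩
  · intro x hx
    have h := hπT ⟨x, hx⟩
    have h' : π x = b.equivFun (N.mkQ ⟨x, hx⟩) := h
    rw [h', LinearEquiv.map_eq_zero_iff, Submodule.mkQ_apply, Submodule.Quotient.mk_eq_zero]
    exact Iff.rfl
  · have h1 := Submodule.finrank_quotient_add_finrank N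
    have h2 : Module.finrank ℝ N = Module.finrank ℝ L :=
      LinearEquiv.finrank_eq (Submodule.submoduleOfEquivOfLe hLT)
    rw [h2] at h1
    exact h1

/-- A direction in which a closed cone contains a half-line belongs to the cone. -/
private theorem quo_dir {Q : Type*} [NormedAddCommGroup Q] [NormedSpace ℝ Q] (S : Set Q)
    (hS : IsClosed S) (hsmul : ∀ a ∈ S, ∀ t : ℝ, 0 ≤ t → t • a ∈ S) (x v : Q)
    (h : ∀ t : ℝ, 0 < t → x + t • v ∈ S) : v ∈ S := by
  have hlim : Filter.Tendsto (fun n : ℕ => ((n : ℝ) + 1)⁻¹ • x + v) Filter.atTop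
      (nhds ((0 : ℝ) • x + v)) := by
    refine Filter.Tendsto.add (Filter.Tendsto.smul_const ?_ x) tendsto_const_nhds
    have h1 := tendsto_one_div_add_atTop_nhds_zero_nat (𝕜 := ℝ)
    simpa [one_div] using h1
  rw [zero_smul, zero_add] at hlim
  refine hS.mem_of_tendsto hlim (Filter.Eventually.of_forall ?_)
  intro n
  have hn : (0 : ℝ) < (n : ℝ) + 1 := by positivity
  have h1 := hsmul _ (h ((n : ℝ) + 1) hn) (((n : ℝ) + 1)⁻¹) (by positivity)
  have e : ((n : ℝ) + 1)⁻¹ • (x + ((n : ℝ) + 1) • v) = ((n : ℝ) + 1)⁻¹ • x + v := by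
    rw [smul_add, smul_smul, inv_mul_cancel₀ hn.ne', one_smul]
  rw [e] at h1
  exact h1

open scoped Pointwise in
/-- The interior of a cone is a cone. -/
private theorem quo_int {Q : Type*} [NormedAddCommGroup Q] [NormedSpace ℝ Q] (S : Set Q)
    (hsmul : ∀ a ∈ S, ∀ t : ℝ, 0 ≤ t → t • a ∈ S) (v : Q) (hv : v ∈ interior S) (t : ℝ)
    (ht : 0 < t) : t • v ∈ interior S := by
  have h1 : t • v ∈ interior (t • S) := by
    rw [interior_smul₀ ht.ne']
    exact Set.smul_mem_smul_set hv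
  refine interior_mono ?_ h1
  rintro _ ⟨a, ha, rfl⟩
  exact hsmul a ha t ht.le

theorem exists_quot {G F : Type*} [Group G] [NormedAddCommGroup F] [NormedSpace ℝ F]
    [FiniteDimensional ℝ F] (ρ : G →* (F →ₗ[ℝ] F)) (S : Set F) (hS : IsClosed S)
    (h0 : (0 : F) ∈ S) (hadd : ∀ a ∈ S, ∀ b ∈ S, a + b ∈ S)
    (hsmul : ∀ a ∈ S, ∀ t : ℝ, 0 ≤ t → t • a ∈ S) (hinv : ∀ g, ∀ a ∈ S, ρ g a ∈ S)
    (e₁ : F) (he₁ : e₁ ∈ S) (he₁' : -e₁ ∉ S) :
    ∃ (d : ℕ) (σ : G →* ((Fin d → ℝ) →ₗ[ℝ] (Fin d → ℝ))) (π : F →ₗ[ℝ] (Fin d → ℝ))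
      (C : Set (Fin d → ℝ)) (f : (Fin d → ℝ) →ₗ[ℝ] ℝ) (c : ℝ),
      0 < d ∧ (∀ L T : Submodule ℝ F, (∀ a, a ∈ L ↔ a ∈ S ∧ -a ∈ S) → (∀ a ∈ S, a ∈ T) →
        d + Module.finrank ℝ L ≤ Module.finrank ℝ T) ∧
      (∀ g, ∀ a ∈ S, π (ρ g a) = σ g (π a)) ∧ (∀ a ∈ S, π a = 0 ↔ -a ∈ S) ∧
      IsOpen C ∧ Convex ℝ C ∧ C.Nonempty ∧ (∀ v ∈ C, ∀ t : ℝ, 0 < t → t • v ∈ C) ∧
      (∀ v, v ≠ 0 → ∃ x ∈ C, ∃ t : ℝ, x + t • v ∉ C) ∧ (∀ g, ∀ v ∈ C, σ g v ∈ C) ∧
      0 < c ∧ ∀ a ∈ S, c * ‖π a‖ ≤ f (π a) := by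
  classical
  set L0 : Submodule ℝ F := quo_lin S h0 hadd hsmul with hL0
  have memL : ∀ a, a ∈ L0 ↔ a ∈ S ∧ -a ∈ S := fun a => Iff.rfl
  set T0 : Submodule ℝ F := Submodule.span ℝ S with hT0
  have hST : ∀ a ∈ S, a ∈ T0 := fun a ha => Submodule.subset_span ha
  have hLT : L0 ≤ T0 := fun a ha => hST a ((memL a).1 ha).1
  obtain ⟨d, π, s, hsT, hsπ, hker, hdim⟩ := quo_coord L0 T0 hLT
  -- invariance
  have hinvT : ∀ g, ∀ a ∈ T0, ρ g a ∈ T0 := by
    intro g a ha
    have h1 : T0 ≤ T0.comap (ρ g) := by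
      rw [hT0]
      refine Submodule.span_le.2 ?_
      intro b hb
      exact hST _ (hinv g b hb)
    exact h1 ha
  have hinvL : ∀ g, ∀ a ∈ L0, ρ g a ∈ L0 := by
    intro g a ha
    obtain ⟨h1, h2⟩ := (memL a).1 ha
    refine (memL _).2 ⟨hinv g a h1, ?_⟩
    have h3 := hinv g _ h2
    rwa [map_neg] at h3
  -- equality of images
  have hsub : ∀ x ∈ T0, ∀ y ∈ T0, π x = π y → ∀ g, π (ρ g x) = π (ρ g y) := by
    intro x hx y hy hxy g
    have h1 : x - y ∈ L0 := by
      refine (hker (x - y) (T0.sub_mem hx hy)).1 ?_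
      rw [map_sub, hxy, sub_self]
    have h2 := hinvL g _ h1
    have h3 := (hker _ (hLT h2)).2 h2
    rw [map_sub, map_sub, sub_eq_zero] at h3
    exact h3
  -- the induced action
  let σf : G → ((Fin d → ℝ) →ₗ[ℝ] (Fin d → ℝ)) := fun g =>
    { toFun := fun v => π (ρ g (s v))
      map_add' := by
        intro v w
        have h1 := hsub (s (v + w)) (hsT _) (s v + s w) (T0.add_mem (hsT _) (hsT _)) (by
          rw [map_add, hsπ, hsπ, hsπ]) g
        rw [h1, map_add, map_add]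
      map_smul' := by
        intro t v
        have h1 := hsub (s (t • v)) (hsT _) (t • s v) (T0.smul_mem t (hsT _)) (by
          rw [map_smul, hsπ, hsπ]) g
        rw [h1, map_smul, map_smul]
        rfl }
  have hσf : ∀ g v, σf g v = π (ρ g (s v)) := fun g v => rfl
  have hσT : ∀ g, ∀ a ∈ T0, π (ρ g a) = σf g (π a) := by
    intro g a ha
    rw [hσf]
    exact hsub a ha _ (hsT _) (by rw [hsπ]) g
  let σ : G →* ((Fin d → ℝ) →ₗ[ℝ] (Fin d → ℝ)) :=
    { toFun := σf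
      map_one' := by
        refine LinearMap.ext ?_
        intro v
        rw [hσf, map_one]
        change π (s v) = v
        exact hsπ v
      map_mul' := by
        intro g h
        refine LinearMap.ext ?_
        intro v
        rw [hσf, map_mul]
        change π (ρ g (ρ h (s v))) = σf g (σf h v)
        rw [hσT g _ (hinvT h _ (hsT v)), hσf h v] }
  have hσ : ∀ g, ∀ a ∈ T0, π (ρ g a) = σ g (π a) := hσT
  -- the image cone
  set Sq : Set (Fin d → ℝ) := π '' S with hSq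
  have hpre : ∀ x ∈ T0, π x ∈ Sq → x ∈ S := by
    rintro x hx ⟨a, ha, hax⟩
    have h1 : x - a ∈ L0 := by
      refine (hker _ (T0.sub_mem hx (hST a ha))).1 ?_
      rw [map_sub, hax, sub_self]
    have h2 := hadd a ha _ ((memL _).1 h1).1
    rwa [add_sub_cancel] at h2
  have hclosed : IsClosed Sq := by
    let p : T0 →ₗ[ℝ] (Fin d → ℝ) := π ∘ₗ T0.subtype
    have hpsurj : Function.Surjective p := fun v => ⟨⟨s v, hsT v⟩, hsπ v⟩
    have hpopen : IsOpenMap p := LinearMap.isOpenMap_of_finiteDimensional p hpsurj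
    have hpcont : Continuous p := LinearMap.continuous_of_finiteDimensional p
    have hq := hpopen.isQuotientMap hpcont hpsurj
    rw [← hq.isClosed_preimage]
    have e : p ⁻¹' Sq = (fun x : T0 => (x : F)) ⁻¹' S := by
      ext x
      constructor
      · intro hx
        exact hpre x x.2 hx
      · intro hx
        exact ⟨(x : F), hx, rfl⟩
    rw [e]
    exact hS.preimage continuous_subtype_val
  have h0q : (0 : Fin d → ℝ) ∈ Sq := ⟨0, h0, map_zero π⟩
  have haddq : ∀ a ∈ Sq, ∀ b ∈ Sq, a + b ∈ Sq := by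
    rintro _ ⟨a, ha, rfl⟩ _ ⟨b, hb, rfl⟩
    exact ⟨a + b, hadd a ha b hb, map_add π a b⟩
  have hsmulq : ∀ a ∈ Sq, ∀ t : ℝ, 0 ≤ t → t • a ∈ Sq := by
    rintro _ ⟨a, ha, rfl⟩ t ht
    exact ⟨t • a, hsmul a ha t ht, map_smul π t a⟩
  have hsalq : ∀ a ∈ Sq, -a ∈ Sq → a = 0 := by
    rintro _ ⟨a, ha, rfl⟩ ⟨b, hb, hab⟩
    have h1 : a + b ∈ L0 := by
      refine (hker _ (T0.add_mem (hST a ha) (hST b hb))).1 ?_
      rw [map_add, hab, add_neg_cancel]
    have h2 := hadd b hb _ ((memL _).1 h1).2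
    have e : b + -(a + b) = -a := by abel
    rw [e] at h2
    exact (hker a (hST a ha)).2 ((memL a).2 ⟨ha, h2⟩)
  have hconvq : Convex ℝ Sq := by
    intro a ha b hb s' t' hs' ht' _
    exact haddq _ (hsmulq a ha s' hs') _ (hsmulq b hb t' ht')
  have hker' : ∀ a ∈ S, π a = 0 ↔ -a ∈ S := by
    intro a ha
    rw [hker a (hST a ha), memL]
    exact ⟨fun h => h.2, fun h => ⟨ha, h⟩⟩
  have hspan : Submodule.span ℝ Sq = ⊤ := by
    rw [hSq, ← Submodule.map_span, ← hT0, eq_top_iff]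
    intro v _
    exact ⟨s v, hsT v, hsπ v⟩
  have hintne : (interior Sq).Nonempty := by
    rw [hconvq.interior_nonempty_iff_affineSpan_eq_top,
      AffineSubspace.affineSpan_eq_top_iff_vectorSpan_eq_top_of_nonempty ℝ _ _ ⟨0, h0q⟩,
      eq_top_iff, ← hspan]
    refine Submodule.span_le.2 ?_
    intro v hv
    have h1 := vsub_mem_vectorSpan ℝ hv h0q
    rw [vsub_eq_sub, sub_zero] at h1
    exact h1
  obtain ⟨f, c, hc, hf⟩ := exists_pos_form Sq hclosed h0q haddq hsmulq hsalq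
  refine ⟨d, σ, π, interior Sq, f, c, ?_, ?_, ?_, hker', isOpen_interior, hconvq.interior,
    hintne, ?_, ?_, ?_, hc, ?_⟩
  · -- `0 < d`
    rcases Nat.eq_zero_or_pos d with hd | hd
    · exfalso
      subst hd
      have h1 : π e₁ = 0 := Subsingleton.elim _ _
      exact he₁' ((hker' e₁ he₁).1 h1)
    · exact hd
  · -- dimension
    intro L T hL hT
    have hLL : L = L0 := by
      ext a
      rw [hL a, memL a]
    have hTT : T0 ≤ T := Submodule.span_le.2 hT
    rw [hLL, hdim]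
    exact Submodule.finrank_mono hTT
  · intro g a ha
    exact hσ g a (hST a ha)
  · -- cone
    intro v hv t ht
    exact quo_int Sq hsmulq v hv t ht
  · -- no line
    intro v hv
    by_contra hcon
    push Not at hcon
    obtain ⟨x, hx⟩ := hintne
    have h1 : v ∈ Sq := quo_dir Sq hclosed hsmulq x v
      (fun t _ => interior_subset (hcon x hx t))
    have h2 : -v ∈ Sq := quo_dir Sq hclosed hsmulq x (-v) (by
      intro t _
      have h3 := interior_subset (hcon x hx (-t))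
      rwa [neg_smul, ← smul_neg] at h3)
    exact hv (hsalq v h1 h2)
  · -- invariance
    intro g v hv
    have hsg : Function.Surjective (σ g) := by
      intro w
      refine ⟨σ g⁻¹ w, ?_⟩
      have h1 : (σ g * σ g⁻¹) w = w := by
        rw [← map_mul, mul_inv_cancel, map_one]
        rfl
      exact h1
    have hopen : IsOpenMap (σ g) := LinearMap.isOpenMap_of_finiteDimensional (σ g) hsg
    have h2 : σ g '' interior Sq ⊆ interior Sq := by
      refine interior_maximal ?_ (hopen _ isOpen_interior)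
      rintro _ ⟨w, hw, rfl⟩
      obtain ⟨a, ha, rfl⟩ := interior_subset hw
      exact ⟨ρ g a, hinv g a ha, hσ g a (hST a ha)⟩
    exact h2 ⟨v, hv, rfl⟩
  · intro a ha
    exact hf _ ⟨a, ha, rfl⟩

end Pool.Agent.Helper47.HP
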