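import Pool.Agent.Helper47.HP.Epi

/-! # Project HP: the linear representation on `E × ℝ` -/

set_option autoImplicit false

open Set

namespace Pool.Agent.Helper47.HP

variable {E : Type*} [NormedAddCommGroup E] [NormedSpace ℝ E] (P : Pot E)

/-- Affine functions which agree on a nonempty open set are equal. -/
private theorem rep_affine_ext (hne : P.X.Nonempty) (a b : E →ᵃ[ℝ] ℝ)
    (h : ∀ x ∈ P.X, a x = b x) : a = b := by
  obtain ⟨x0, hx0⟩ := hne
  ext y
  have hcont : Continuous (fun t : ℝ => AffineMap.lineMap x0 y t) := by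
    have : (fun t : ℝ => AffineMap.lineMap x0 y t) = fun t : ℝ => t • (y - x0) + x0 := by
      funext t
      simp [AffineMap.lineMap_apply]
    rw [this]
    exact (continuous_id.smul continuous_const).add continuous_const
  have hopen : IsOpen ((fun t : ℝ => AffineMap.lineMap x0 y t) ⁻¹' P.X) :=
    P.isOpen.preimage hcont
  have h0 : (0 : ℝ) ∈ ((fun t : ℝ => AffineMap.lineMap x0 y t) ⁻¹' P.X) := by
    simpa using hx0
  obtain ⟨ε, hε, hball⟩ := Metric.isOpen_iff.1 hopen 0 h0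
  have hmem : (ε / 2) ∈ Metric.ball (0 : ℝ) ε := by
    rw [Metric.mem_ball, Real.dist_eq, sub_zero, abs_of_pos (by linarith)]
    linarith
  have hX : AffineMap.lineMap x0 y (ε / 2) ∈ P.X := hball hmem
  have h1 := h _ hX
  rw [AffineMap.apply_lineMap, AffineMap.apply_lineMap, h x0 hx0] at h1
  simp only [AffineMap.lineMap_apply, vsub_eq_sub, smul_eq_mul, vadd_eq_add] at h1
  have h2 : ε / 2 * (a y - b y) = 0 := by linarith
  rcases mul_eq_zero.1 h2 with h3 | h3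
  · linarith
  · linarith

private theorem rep_apply_add (g : E ≃ᵃ[ℝ] E) (x v : E) : g (x + v) = g x + g.linear v := by
  have := g.map_vadd x v
  simp only [vadd_eq_add] at this
  rw [add_comm x v, this, add_comm]

private theorem rep_apply_add' (a : E →ᵃ[ℝ] ℝ) (x v : E) : a (x + v) = a x + a.linear v := by
  have := a.map_vadd x v
  simp only [vadd_eq_add] at this
  rw [add_comm x v, this, add_comm]

private theorem rep_apply_inv (g : E ≃ᵃ[ℝ] E) (x : E) : g (g⁻¹ x) = x := by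
  change (g * g⁻¹) x = x
  rw [mul_inv_cancel]
  rfl

private theorem rep_V (g : E ≃ᵃ[ℝ] E) (hg : ∀ x ∈ P.X, g x ∈ P.X)
    (hg' : ∀ x ∈ P.X, g⁻¹ x ∈ P.X) (v : E) (hv : v ∈ P.V) : g.linear v ∈ P.V := by
  rw [P.mem_V]
  intro x hx t
  have h1 : g (g⁻¹ x + t • v) = x + t • g.linear v := by
    rw [rep_apply_add, rep_apply_inv, map_smul]
  rw [← h1]
  exact hg _ ((P.mem_V v).1 hv _ (hg' x hx) t)

theorem Pot.exists_rep (Γ : Subgroup (E ≃ᵃ[ℝ] E)) (hne : P.X.Nonempty)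
    (hinv : ∀ g ∈ Γ, ∀ x ∈ P.X, g x ∈ P.X)
    (hφ : ∀ g ∈ Γ, ∃ a : E →ᵃ[ℝ] ℝ, ∀ x ∈ P.X, P.φ (g x) = P.φ x + a x) :
    ∃ (a : Γ → (E →ᵃ[ℝ] ℝ)) (ρ : Γ →* ((E × ℝ) →ₗ[ℝ] (E × ℝ))),
      (∀ g : Γ, ∀ x ∈ P.X, P.φ (g.1 x) = P.φ x + a g x) ∧
      (∀ (g : Γ) (e : E × ℝ), ρ g e = (g.1.linear e.1, e.2 + (a g).linear e.1)) ∧
      ∀ g : Γ, ∀ e ∈ P.epi, ρ g e ∈ P.epi := by
  choose a ha using fun g : Γ => hφ g.1 g.2
  have hone : a 1 = 0 := by
    apply rep_affine_ext P hne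
    intro x hx
    have h1 := ha 1 x hx
    have h2 : (1 : Γ).1 x = x := rfl
    rw [h2] at h1
    have h3 : (0 : E →ᵃ[ℝ] ℝ) x = 0 := rfl
    rw [h3]
    linarith
  have hmul : ∀ g h : Γ, a (g * h) = a h + (a g).comp (h.1 : E →ᵃ[ℝ] E) := by
    intro g h
    apply rep_affine_ext P hne
    intro x hx
    have h1 := ha (g * h) x hx
    have h2 : (g * h).1 x = g.1 (h.1 x) := rfl
    rw [h2, ha g _ (hinv h.1 h.2 x hx), ha h x hx] at h1
    have h3 : (a h + (a g).comp (h.1 : E →ᵃ[ℝ] E)) x = a h x + a g (h.1 x) := rfl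
    rw [h3]
    linarith
  have hmulL : ∀ (g h : Γ) (v : E),
      (a (g * h)).linear v = (a h).linear v + (a g).linear (h.1.linear v) := by
    intro g h v
    rw [hmul g h]
    rfl
  have honeL : ∀ v : E, (a 1).linear v = 0 := by
    intro v
    rw [hone]
    rfl
  let r : Γ → ((E × ℝ) →ₗ[ℝ] (E × ℝ)) := fun g =>
    { toFun := fun e => (g.1.linear e.1, e.2 + (a g).linear e.1)
      map_add' := by
        intro e f
        ext
        · simp
        · simp only [Prod.fst_add, Prod.snd_add, map_add]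
          ring
      map_smul' := by
        intro c e
        ext
        · simp
        · simp only [Prod.smul_fst, Prod.smul_snd, map_smul, smul_eq_mul, RingHom.id_apply]
          ring }
  have hr : ∀ (g : Γ) (e : E × ℝ), r g e = (g.1.linear e.1, e.2 + (a g).linear e.1) :=
    fun g e => rfl
  let ρ : Γ →* ((E × ℝ) →ₗ[ℝ] (E × ℝ)) :=
    { toFun := r
      map_one' := by
        refine LinearMap.ext fun e => ?_
        rw [hr, honeL]
        have h1 : (1 : Γ).1.linear e.1 = e.1 := rfl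
        rw [h1, add_zero]
        rfl
      map_mul' := by
        intro g h
        refine LinearMap.ext fun e => ?_
        change r (g * h) e = r g (r h e)
        rw [hr, hr, hr, hmulL]
        have h1 : (g * h).1.linear e.1 = g.1.linear (h.1.linear e.1) := rfl
        rw [h1, add_assoc] }
  refine ⟨a, ρ, ha, fun g e => rfl, ?_⟩
  intro g e he
  have hg' : ∀ x ∈ P.X, g.1⁻¹ x ∈ P.X := hinv _ (Γ.inv_mem g.2)
  have hg : ∀ x ∈ P.X, g.1 x ∈ P.X := hinv _ g.2
  change (g.1.linear e.1, e.2 + (a g).linear e.1) ∈ P.epi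
  refine ⟨rep_V P g.1 hg hg' e.1 he.1, ?_⟩
  intro x hx
  have hx' := hg' x hx
  have hv : g.1⁻¹ x + e.1 ∈ P.X := by
    have := (P.mem_V e.1).1 he.1 _ hx' 1
    rwa [one_smul] at this
  have h1 : x + g.1.linear e.1 = g.1 (g.1⁻¹ x + e.1) := by
    rw [rep_apply_add, rep_apply_inv]
  change P.φ (x + g.1.linear e.1) ≤ P.φ x + (e.2 + (a g).linear e.1)
  rw [h1, ha g _ hv, rep_apply_add']
  have h2 := ha g _ hx'
  rw [rep_apply_inv] at h2
  have h3 := he.2 _ hx'
  linarith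

/-- `V` and the flat directions are invariant. -/
theorem Pot.flat_inv (W : Submodule ℝ E) (hW : P.IsFlat W) (g : E ≃ᵃ[ℝ] E)
    (hg : ∀ x ∈ P.X, g x ∈ P.X) (hg' : ∀ x ∈ P.X, g⁻¹ x ∈ P.X) (a : E →ᵃ[ℝ] ℝ)
    (ha : ∀ x ∈ P.X, P.φ (g x) = P.φ x + a x) (hne : P.X.Nonempty) :
    (∀ v ∈ P.V, g.linear v ∈ P.V) ∧ ∀ v ∈ W, g.linear v ∈ W := by
  refine ⟨rep_V P g hg hg', ?_⟩
  intro v hv
  obtain ⟨hvV, τ, hτ⟩ := (hW v).1 hv
  rw [hW]
  refine ⟨rep_V P g hg hg' v hvV, τ + a.linear v, ?_⟩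
  intro x hx t
  have hx' := hg' x hx
  have hv : g⁻¹ x + t • v ∈ P.X := (P.mem_V v).1 hvV _ hx' t
  have h1 : x + t • g.linear v = g (g⁻¹ x + t • v) := by
    rw [rep_apply_add, rep_apply_inv, map_smul]
  rw [h1, ha _ hv, rep_apply_add', hτ _ hx', map_smul, smul_eq_mul]
  have h2 := ha _ hx'
  rw [rep_apply_inv] at h2
  rw [h2]
  ring

end Pool.Agent.Helper47.HP
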