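import Mathlib

/-!
# Project HP (MP_f22a19_gt): equivariant convex potentials. Definitions.
-/

set_option autoImplicit false

open Set

namespace Pool.Agent.Helper47.HP

/-- A convex function `φ` on an open convex set `X` with lineality space `V`. -/
structure Pot (E : Type*) [NormedAddCommGroup E] [NormedSpace ℝ E] where
  X : Set E
  isOpen : IsOpen X
  convex : Convex ℝ X
  V : Submodule ℝ E
  mem_V : ∀ v, v ∈ V ↔ ∀ x ∈ X, ∀ t : ℝ, x + t • v ∈ X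
  φ : E → ℝ
  conv : ConvexOn ℝ X φ

section

variable {E : Type*} [NormedAddCommGroup E] [NormedSpace ℝ E]

/-- The pairs `(v, τ)`, `v ∈ V`, such that `φ (x + v) ≤ φ x + τ` for all `x ∈ X`. -/
def Pot.epi (P : Pot E) : Set (E × ℝ) :=
  {e | e.1 ∈ P.V ∧ ∀ x ∈ P.X, P.φ (x + e.1) ≤ P.φ x + e.2}

/-- `W` is the space of the directions of `V` in which `φ` is affine. -/
def Pot.IsFlat (P : Pot E) (W : Submodule ℝ E) : Prop :=
  ∀ v, v ∈ W ↔ v ∈ P.V ∧ ∃ τ : ℝ, ∀ x ∈ P.X, ∀ t : ℝ, P.φ (x + t • v) = P.φ x + t * τ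

/-- The linear form `p` supports the recession function of `φ` exactly along the flat directions. -/
def Pot.Supp (P : Pot E) (p : E →ₗ[ℝ] ℝ) : Prop :=
  ∀ e ∈ P.epi, (-e ∉ P.epi → p e.1 < e.2) ∧ (-e ∈ P.epi → p e.1 = e.2)

/-- The affine maps `g` and `g⁻¹` are bounded by `R` on `E / V` (the same as `Pool.AF.AffBdd`). -/
def ABdd (V : Submodule ℝ E) (R : ℝ) (g : E ≃ᵃ[ℝ] E) : Prop :=
  ∀ x : E, ∃ v ∈ V, ∃ v' ∈ V, ‖g x - v‖ ≤ R * (1 + ‖x‖) ∧ ‖g⁻¹ x - v'‖ ≤ R * (1 + ‖x‖)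

/-- `K` is a symmetric convex subset of `V`, absorbing in `V`, which contains `W` and is bounded
modulo `W`. -/
structure IsBody (V W : Submodule ℝ E) (K : Set E) : Prop where
  sub : ∀ v ∈ K, v ∈ V
  convex : Convex ℝ K
  symm : ∀ v ∈ K, -v ∈ K
  flat : ∀ w ∈ W, w ∈ K
  absorb : ∀ v ∈ V, ∃ t : ℝ, 0 < t ∧ t • v ∈ K
  bdd : ∃ ϱ : ℝ, ∀ v ∈ K, ∃ w ∈ W, ‖v - w‖ ≤ ϱ

/-- The map induced by `A` on `U / T`. -/
noncomputable def qMap (T U : Submodule ℝ E) (A : E →ₗ[ℝ] E) (hU : ∀ u ∈ U, A u ∈ U)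
    (hT : ∀ u ∈ T, A u ∈ T) : (U ⧸ T.submoduleOf U) →ₗ[ℝ] (U ⧸ T.submoduleOf U) :=
  (T.submoduleOf U).mapQ (T.submoduleOf U) (A.restrict hU) (by
    intro u hu
    exact hT u.1 hu)

theorem qMap_mk (T U : Submodule ℝ E) (A : E →ₗ[ℝ] E) (hU : ∀ u ∈ U, A u ∈ U)
    (hT : ∀ u ∈ T, A u ∈ T) (u : U) :
    qMap T U A hU hT ((T.submoduleOf U).mkQ u) = (T.submoduleOf U).mkQ ⟨A u, hU u u.2⟩ := rfl

end

end Pool.Agent.Helper47.HP
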