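import Pool.Agent.Helper47.HP.Defs

/-! # Project HP: the recession cone of the epigraph -/

set_option autoImplicit false

open Set

namespace Pool.Agent.Helper47.HP

variable {E : Type*} [NormedAddCommGroup E] [NormedSpace ℝ E] (P : Pot E)

private theorem epi_smul_mem {v x : E} (hv : v ∈ P.V) (hx : x ∈ P.X) (t : ℝ) :
    x + t • v ∈ P.X := (P.mem_V v).mp hv x hx t

private theorem epi_add_mem {v x : E} (hv : v ∈ P.V) (hx : x ∈ P.X) : x + v ∈ P.X := by
  have := epi_smul_mem P hv hx 1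
  rwa [one_smul] at this

theorem Pot.zero_mem_epi : (0 : E × ℝ) ∈ P.epi := by
  refine ⟨P.V.zero_mem, fun x _ => ?_⟩
  simp

theorem Pot.add_mem_epi {a b : E × ℝ} (ha : a ∈ P.epi) (hb : b ∈ P.epi) : a + b ∈ P.epi := by
  refine ⟨P.V.add_mem ha.1 hb.1, fun x hx => ?_⟩
  have h1 := ha.2 x hx
  have h2 := hb.2 (x + a.1) (epi_add_mem P ha.1 hx)
  rw [Prod.fst_add, Prod.snd_add, ← add_assoc]
  linarith

theorem Pot.vert_mem_epi {τ : ℝ} (hτ : 0 ≤ τ) : ((0 : E), τ) ∈ P.epi := by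
  refine ⟨P.V.zero_mem, fun x _ => ?_⟩
  simp only [add_zero]
  linarith

private theorem epi_nat {a : E × ℝ} (ha : a ∈ P.epi) : ∀ n : ℕ, (n : ℝ) • a ∈ P.epi
  | 0 => by
      rw [Nat.cast_zero, zero_smul]
      exact P.zero_mem_epi
  | n + 1 => by
      rw [Nat.cast_succ, add_smul, one_smul]
      exact P.add_mem_epi (epi_nat ha n) ha

private theorem epi_frac {a : E × ℝ} (ha : a ∈ P.epi) {t : ℝ} (h0 : 0 ≤ t) (h1 : t ≤ 1) :
    t • a ∈ P.epi := by
  refine ⟨P.V.smul_mem t ha.1, fun x hx => ?_⟩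
  have h2 := P.conv.2 hx (epi_add_mem P ha.1 hx) (sub_nonneg.mpr h1) h0 (by ring)
  have h3 : (1 - t) • x + t • (x + a.1) = x + t • a.1 := by
    rw [sub_smul, one_smul, smul_add]
    abel
  rw [h3, smul_eq_mul, smul_eq_mul] at h2
  have h4 := mul_le_mul_of_nonneg_left (ha.2 x hx) h0
  rw [Prod.smul_fst, Prod.smul_snd, smul_eq_mul]
  linarith

theorem Pot.smul_mem_epi {a : E × ℝ} (ha : a ∈ P.epi) {t : ℝ} (ht : 0 ≤ t) : t • a ∈ P.epi := by
  have h1 : t • a = (⌊t⌋₊ : ℝ) • a + (t - ⌊t⌋₊) • a := by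
    rw [← add_smul]
    congr 1
    ring
  rw [h1]
  refine P.add_mem_epi (epi_nat P ha _) (epi_frac P ha ?_ ?_)
  · exact sub_nonneg.mpr (Nat.floor_le ht)
  · have := Nat.lt_floor_add_one t
    linarith

theorem Pot.isClosed_epi [FiniteDimensional ℝ E] : IsClosed P.epi := by
  have hc : ContinuousOn P.φ P.X := P.conv.continuousOn P.isOpen
  have hV : IsClosed (P.V : Set E) := P.V.closed_of_finiteDimensional
  refine IsSeqClosed.isClosed ?_
  intro e l he hl
  have hl1 : Filter.Tendsto (fun n => (e n).1) Filter.atTop (nhds l.1) :=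
    (continuous_fst.tendsto l).comp hl
  have hl2 : Filter.Tendsto (fun n => (e n).2) Filter.atTop (nhds l.2) :=
    (continuous_snd.tendsto l).comp hl
  have hlV : l.1 ∈ P.V := hV.mem_of_tendsto hl1 (Filter.Eventually.of_forall fun n => (he n).1)
  refine ⟨hlV, fun x hx => ?_⟩
  have hx' := epi_add_mem P hlV hx
  have hca : ContinuousAt P.φ (x + l.1) := hc.continuousAt (P.isOpen.mem_nhds hx')
  have h1 : Filter.Tendsto (fun n => P.φ (x + (e n).1)) Filter.atTop (nhds (P.φ (x + l.1))) :=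
    hca.tendsto.comp (hl1.const_add x)
  have h2 : Filter.Tendsto (fun n => P.φ x + (e n).2) Filter.atTop (nhds (P.φ x + l.2)) :=
    hl2.const_add _
  exact le_of_tendsto_of_tendsto' h1 h2 fun n => (he n).2 x hx

/-- The base point lemma. -/
theorem Pot.mem_epi_of_le {x₀ v : E} (hx₀ : x₀ ∈ P.X) (hv : v ∈ P.V) {c τ : ℝ}
    (h : ∀ t : ℝ, 0 ≤ t → P.φ (x₀ + t • v) ≤ c + t * τ) : (v, τ) ∈ P.epi := by
  refine ⟨hv, fun y hy => ?_⟩
  simp only
  -- a point beyond `y`
  obtain ⟨e, he, hz⟩ : ∃ e : ℝ, 0 < e ∧ y + e • (y - x₀) ∈ P.X := by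
    have hcont : Filter.Tendsto (fun e : ℝ => y + e • (y - x₀)) (nhds 0) (nhds y) := by
      have : Continuous fun e : ℝ => y + e • (y - x₀) := by fun_prop
      have h1 := this.tendsto 0
      simpa using h1
    have hev := hcont.eventually (P.isOpen.mem_nhds hy)
    obtain ⟨d, hd, hball⟩ := Metric.eventually_nhds_iff.mp hev
    refine ⟨d / 2, half_pos hd, hball ?_⟩
    rw [dist_zero_right, Real.norm_eq_abs, abs_of_pos (half_pos hd)]
    exact half_lt_self hd
  set z := y + e • (y - x₀) with hzdef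
  have h1e : 0 < 1 + e := by linarith
  have hbd : ∀ s : ℝ, 0 ≤ s →
      P.φ (y + s • v) ≤ (e / (1 + e) * c + 1 / (1 + e) * P.φ z) + s * τ := fun s hs => by
    have h1 := P.conv.2 (epi_smul_mem P hv hx₀ (s * ((1 + e) / e))) hz
      (show 0 ≤ e / (1 + e) by positivity) (show 0 ≤ 1 / (1 + e) by positivity)
      (by field_simp; ring)
    have h2 : (e / (1 + e)) • (x₀ + (s * ((1 + e) / e)) • v) + (1 / (1 + e)) • z = y + s • v := by
      have e1 : (e / (1 + e)) • (x₀ + (s * ((1 + e) / e)) • v) + (1 / (1 + e)) • z =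
          (e / (1 + e) - 1 / (1 + e) * e) • x₀ +
            (1 / (1 + e) + 1 / (1 + e) * e) • y + (e / (1 + e) * (s * ((1 + e) / e))) • v := by
        rw [hzdef]
        module
      rw [e1]
      have e2 : e / (1 + e) - 1 / (1 + e) * e = 0 := by ring
      have e3 : 1 / (1 + e) + 1 / (1 + e) * e = 1 := by field_simp
      have e4 : e / (1 + e) * (s * ((1 + e) / e)) = s := by field_simp
      rw [e2, e3, e4, zero_smul, one_smul, zero_add]
    rw [h2, smul_eq_mul, smul_eq_mul] at h1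
    have h3 := h (s * ((1 + e) / e)) (by positivity)
    have h4 := mul_le_mul_of_nonneg_left h3 (show 0 ≤ e / (1 + e) by positivity)
    have h5 : e / (1 + e) * (c + s * ((1 + e) / e) * τ) = e / (1 + e) * c + s * τ := by
      field_simp
    rw [h5] at h4
    linarith
  set c' := e / (1 + e) * c + 1 / (1 + e) * P.φ z with hc'
  by_contra hcon
  push Not at hcon
  set δ := P.φ (y + v) - P.φ y - τ with hδ
  have hδ0 : 0 < δ := by linarith
  obtain ⟨n, hn⟩ := exists_nat_gt ((c' - P.φ y) / δ)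
  rw [div_lt_iff₀ hδ0] at hn
  have hN : (0 : ℝ) < (n : ℝ) + 1 := by positivity
  have h6 := hbd ((n : ℝ) + 1) hN.le
  have h7 := P.conv.2 hy (epi_smul_mem P hv hy ((n : ℝ) + 1))
    (show 0 ≤ 1 - 1 / ((n : ℝ) + 1) by
      rw [sub_nonneg, div_le_one hN]
      linarith [Nat.cast_nonneg (α := ℝ) n])
    (show 0 ≤ 1 / ((n : ℝ) + 1) by positivity) (by ring)
  have h8 : (1 - 1 / ((n : ℝ) + 1)) • y + (1 / ((n : ℝ) + 1)) • (y + ((n : ℝ) + 1) • v) =
      y + v := by
    rw [sub_smul, one_smul, smul_add, smul_smul, one_div, inv_mul_cancel₀ hN.ne', one_smul]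
    abel
  rw [h8, smul_eq_mul, smul_eq_mul] at h7
  have h9 := mul_le_mul_of_nonneg_left h7 hN.le
  have h10 : ((n : ℝ) + 1) * ((1 - 1 / ((n : ℝ) + 1)) * P.φ y +
      1 / ((n : ℝ) + 1) * P.φ (y + ((n : ℝ) + 1) • v)) =
      (n : ℝ) * P.φ y + P.φ (y + ((n : ℝ) + 1) • v) := by
    field_simp
    ring
  rw [h10] at h9
  have h11 : ((n : ℝ) + 1) * P.φ (y + v) = ((n : ℝ) + 1) * (δ + P.φ y + τ) := by
    rw [hδ]
    ring
  rw [h11] at h9
  nlinarith

theorem Pot.flat_of_epi {e : E × ℝ} (he : e ∈ P.epi) (he' : -e ∈ P.epi) :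
    ∀ x ∈ P.X, ∀ t : ℝ, P.φ (x + t • e.1) = P.φ x + t * e.2 := by
  have hall : ∀ t : ℝ, t • e ∈ P.epi := fun t => by
    rcases le_total 0 t with ht | ht
    · exact P.smul_mem_epi he ht
    · have h1 := P.smul_mem_epi he' (neg_nonneg.mpr ht)
      rwa [smul_neg, neg_smul, neg_neg] at h1
  intro x hx t
  have h1 := (hall t).2 x hx
  have h2 := (hall (-t)).2 (x + t • e.1) (epi_smul_mem P he.1 hx t)
  rw [Prod.smul_fst, Prod.smul_snd, smul_eq_mul] at h1 h2
  rw [neg_smul, add_neg_cancel_right] at h2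
  linarith

theorem Pot.epi_of_flat {v : E} (hv : v ∈ P.V) {τ : ℝ}
    (h : ∀ x ∈ P.X, ∀ t : ℝ, P.φ (x + t • v) = P.φ x + t * τ) :
    (v, τ) ∈ P.epi ∧ -((v, τ) : E × ℝ) ∈ P.epi := by
  refine ⟨⟨hv, fun x hx => ?_⟩, ⟨P.V.neg_mem hv, fun x hx => ?_⟩⟩
  · have h1 := h x hx 1
    rw [one_smul, one_mul] at h1
    exact h1.le
  · have h1 := h x hx (-1)
    rw [neg_smul, one_smul] at h1
    change P.φ (x + -v) ≤ P.φ x + -τ
    rw [h1]
    linarith

end Pool.Agent.Helper47.HP
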