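import Pool.Agent.Helper47.HP.Core
import Pool.Agent.Helper47.HP.Qbd
import Pool.Agent.Helper47.HP.Flag
import Pool.Agent.Helper47.HP.Stmt
import Pool.Agent.Helper94.AS.Res

/-! # Project HP: assembly -/

set_option autoImplicit false

open Set Finset
open scoped Matrix

namespace Pool.Agent.Helper47.HP

open Pool.AF Pool.SV

private theorem fin_quotBdd_mono {E : Type*} [NormedAddCommGroup E] [NormedSpace ℝ E]
    {A B : Submodule ℝ E} {R R' : ℝ} (hR : R ≤ R') {g : E ≃ᵃ[ℝ] E} (h : QuotBdd A B R g) :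
    QuotBdd A B R' g := by
  obtain ⟨t, ht, h⟩ := h
  refine ⟨t, ht, fun v hv => ?_⟩
  obtain ⟨a, ha, a', ha', h1, h2⟩ := h v hv
  exact ⟨a, ha, a', ha', h1.trans (mul_le_mul_of_nonneg_right hR (norm_nonneg _)),
    h2.trans (mul_le_mul_of_nonneg_right hR (norm_nonneg _))⟩

theorem dominated_of_potential {E : Type*} [NormedAddCommGroup E] [NormedSpace ℝ E]
    [FiniteDimensional ℝ E] (Γ : Subgroup (E ≃ᵃ[ℝ] E)) (X : Set E) (hX : IsOpen X)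
    (hXc : Convex ℝ X) (hne : X.Nonempty) (hinv : ∀ g ∈ Γ, ∀ x ∈ X, g x ∈ X)
    (h : PotentialDominated Γ X) : Dominated Γ X := by
  obtain ⟨φ, V, r, F, k, d, n, σ, hφ, hq, hV, hF0, hFr, hFi, hσ, hsum, hsum', hb⟩ := h
  let P : Pot E := ⟨X, hX, hXc, V, hV, φ, hφ⟩
  have hW : P.IsFlat (F r) := fun v => hFr v
  have hWV : F r ≤ V := fun v hv => ((hFr v).1 hv).1
  have hinvs : ∀ g ∈ Γ, ∀ x ∈ X, g⁻¹ x ∈ X := fun g hg => hinv _ (Γ.inv_mem hg)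
  have hflat : ∀ g ∈ Γ, (∀ v ∈ V, g.linear v ∈ V) ∧ ∀ v ∈ F r, g.linear v ∈ F r := by
    intro g hg
    obtain ⟨a, ha⟩ := hq g hg
    exact P.flat_inv (F r) hW g (hinv g hg) (hinvs g hg) a ha hne
  obtain ⟨dQ, σQ, C, hd0, hdim, hC1, hC2, hC3, hC4, hC5, hC6, hbody⟩ :=
    P.exists_core Γ hne hinv hq (F r) hW
  obtain ⟨s, Fl, hFl0, hFls, hFl⟩ := exists_flag (G := Γ)
    (fun g => (g.1.linear : E →ₗ[ℝ] E)) (F r) V hWV (fun g => (hflat g.1 g.2).2)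
    (fun g => (hflat g.1 g.2).1)
  -- the flag
  set F' : ℕ → Submodule ℝ E := fun i => if i ≤ r then F i else Fl (i - r) with hF'
  have hF'1 : ∀ i, i ≤ r → F' i = F i := fun i hi => by simp only [hF', if_pos hi]
  have hF'2 : ∀ j, F' (r + j) = Fl j := by
    intro j
    rcases Nat.eq_zero_or_pos j with rfl | hj
    · rw [Nat.add_zero, hF'1 r le_rfl, hFl0]
    · simp only [hF']
      rw [if_neg (by omega), Nat.add_sub_cancel_left]
  have hF'V : F' (r + s) = V := by rw [hF'2, hFls]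
  -- the bound property
  let B : ℝ → Γ → Prop := fun R g => SBdd σQ R g ∧ ABdd V R g.1
  have hB : ∀ δ : Γ, ∀ R, ∃ R', ∀ g, B R g → B R' (g * δ) := by
    intro δ R
    obtain ⟨R₁, h₁⟩ := sbdd_mul σQ δ R
    obtain ⟨R₂, h₂⟩ := abdd_mul V δ.1 (hflat _ (Γ.inv_mem δ.2)).1 R
    exact ⟨max R₁ R₂, fun g hg => ⟨sbdd_mono (le_max_left _ _) (h₁ g hg.1),
      abdd_mono (le_max_right _ _) (h₂ g.1 hg.2)⟩⟩
  have hBi : ∀ R g, B R g → B R g⁻¹ := fun R g hg => ⟨sbdd_inv hg.1, abdd_inv hg.2⟩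
  have hK : ∀ R, ∃ C : ℝ, 0 ≤ C ∧ ∀ g : Γ, B R g → ∃ K, IsBody V (F r) K ∧
      ∀ v ∈ K, ∃ u ∈ K, g.1.linear v = C • u := by
    intro R
    obtain ⟨C', hC'0, hC'⟩ := hbody R
    exact ⟨C', hC'0, fun g hg => hC' g hg.1 hg.2⟩
  have hquot : ∀ R : ℝ, ∀ j < s, ∃ R' : ℝ, ∀ g : Γ, B R g →
      QuotBdd (Fl j) (Fl (j + 1)) R' g.1 := by
    intro R j hj
    obtain ⟨h1, h2, h3, h4, h5, h6⟩ := hFl j hj
    obtain ⟨R', hR'⟩ := quot_bdd Γ V (F r) (Fl j) (Fl (j + 1)) h4 h1 h5 h2 h3 h6 B hB hBi hK R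
    refine ⟨R', fun g hg => ⟨1, one_pos, fun v hv => ?_⟩⟩
    obtain ⟨a, ha, a', ha', h7, h8⟩ := hR' g hg v hv
    exact ⟨a, ha, a', ha', by rwa [one_smul], by rwa [inv_one, one_smul]⟩
  have hquot' : ∀ R : ℝ, ∃ R' : ℝ, ∀ g : Γ, B R g → ∀ j < s,
      QuotBdd (Fl j) (Fl (j + 1)) R' g.1 := by
    intro R
    have h1 : ∀ j, ∃ R' : ℝ, ∀ g : Γ, B R g → j < s → QuotBdd (Fl j) (Fl (j + 1)) R' g.1 := by
      intro j
      by_cases hj : j < s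
      · obtain ⟨R', hR'⟩ := hquot R j hj
        exact ⟨R', fun g hg _ => hR' g hg⟩
      · exact ⟨0, fun g _ h => absurd h hj⟩
    choose f hf using h1
    refine ⟨∑ j ∈ Finset.range s, |f j|, fun g hg j hj => fin_quotBdd_mono ?_ (hf j g hg hj)⟩
    exact (le_abs_self _).trans (Finset.single_le_sum (f := fun j => |f j|)
      (fun i _ => abs_nonneg _) (Finset.mem_range.2 hj))
  -- the representations
  let d' : Fin (k + 1) → ℕ := Fin.cons dQ d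
  let n' : Fin (k + 1) → ℕ := Fin.cons (dQ - 1) n
  let σ' : ∀ j, Γ →* ((Fin (d' j) → ℝ) →ₗ[ℝ] (Fin (d' j) → ℝ)) :=
    Fin.cases (motive := fun j => Γ →* ((Fin (d' j) → ℝ) →ₗ[ℝ] (Fin (d' j) → ℝ))) σQ
      (fun j => σ j)
  have hsumd : ∑ j, n' j = (dQ - 1) + ∑ j, n j := by
    rw [Fin.sum_univ_succ]
    rfl
  have hdimF : (dQ - 1) + Module.finrank ℝ (F r) ≤ Module.finrank ℝ V := by
    have h1 : dQ + Module.finrank ℝ (F r) ≤ Module.finrank ℝ V + 1 := hdim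
    omega
  refine ⟨r + s, F', k + 1, d', n', σ', ?_, ?_, ?_, ?_, ?_, ?_, ?_⟩
  · rw [hF'1 0 (Nat.zero_le _), hF0]
  · intro v
    rw [hF'V]
    exact hV v
  · intro i hi
    by_cases hir : i < r
    · rw [hF'1 i hir.le, hF'1 (i + 1) hir]
      exact hFi i hir
    · obtain ⟨j, rfl⟩ := Nat.exists_eq_add_of_le (not_lt.1 hir)
      rw [Nat.add_assoc, hF'2, hF'2]
      obtain ⟨h1, h2, h3, h4, h5, h6⟩ := hFl j (by omega)
      exact ⟨h1, fun g hg v hv => h3 ⟨g, hg⟩ v hv⟩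
  · intro j
    refine Fin.cases ?_ (fun j => ?_) j
    · exact ⟨hd0, Or.inl ⟨Nat.sub_add_cancel hd0, C, ⟨hC1, hC2, hC3, hC4, hC5, hC6⟩⟩⟩
    · exact hσ j
  · rw [hsumd, hF'V]
    omega
  · intro hXu
    have h1 := hsum' hXu
    rw [hsumd, hF'V]
    omega
  · intro R
    obtain ⟨R₁, h₁⟩ := hb R
    obtain ⟨R₂, h₂⟩ := hquot' R
    refine ⟨max R₁ R₂, fun g hg hg' i hi => ?_⟩
    rw [hF'V] at hg'
    by_cases hir : i < r
    · rw [hF'1 i hir.le, hF'1 (i + 1) hir]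
      exact fin_quotBdd_mono (le_max_left _ _) (h₁ g (fun j => hg j.succ) hg' i hir)
    · obtain ⟨j, rfl⟩ := Nat.exists_eq_add_of_le (not_lt.1 hir)
      rw [Nat.add_assoc, hF'2, hF'2]
      exact fin_quotBdd_mono (le_max_right _ _) (h₂ g ⟨hg 0, hg'⟩ j (by omega))

theorem resHP (n : ℕ) (Γ : Subgroup (Aff (n + 1))) (X : Set (EuclideanSpace ℝ (Fin (n + 1))))
    (hX : Divides Γ X) (hdom : VirtuallyPotentialDominated Γ X) (M : Type*)
    [TopologicalSpace M] (π : X → M) (hπ : IsOrbitSpace Γ X M π) : ZeroSeminorm M n := by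
  obtain ⟨Γ₁, hle, hfin, hF⟩ := hdom
  exact resAS n Γ X hX ⟨Γ₁, hle, hfin, dominated_of_potential Γ₁ X hX.isOpen hX.convex hX.nonempty
    (fun g hg => hX.inv g (hle hg)) hF⟩ M π hπ

end Pool.Agent.Helper47.HP
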