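import Pool.Agent.Helper47.HP.LB

/-! # Project HP: the main inequality -/

set_option autoImplicit false

open Set

namespace Pool.Agent.Helper47.HP

variable {E : Type*} [NormedAddCommGroup E] [NormedSpace ℝ E] [FiniteDimensional ℝ E] (P : Pot E)

/-- `φ (x₀ + v) - φ x₀ - p v`. -/
def Pot.psi (x₀ : E) (p : E →ₗ[ℝ] ℝ) (v : E) : ℝ := P.φ (x₀ + v) - P.φ x₀ - p v

/-- The form `p₂` with `p = (1 - m) p₁ + m p₂`. -/
private noncomputable def ineq_p2 (p p₁ : E →ₗ[ℝ] ℝ) (m : ℝ) : E →ₗ[ℝ] ℝ :=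
  m⁻¹ • (p - (1 - m) • p₁)

omit [FiniteDimensional ℝ E] in
private theorem ineq_p2_apply (p p₁ : E →ₗ[ℝ] ℝ) {m : ℝ} (hm : 0 < m) (v : E) :
    m * ineq_p2 p p₁ m v = p v - (1 - m) * p₁ v := by
  rw [ineq_p2, LinearMap.smul_apply, LinearMap.sub_apply, LinearMap.smul_apply, smul_eq_mul,
    smul_eq_mul, ← mul_assoc, mul_inv_cancel₀ hm.ne', one_mul]

omit [FiniteDimensional ℝ E] in
private theorem ineq_supp (p p₁ : E →ₗ[ℝ] ℝ) (hp : P.Supp p) {m C : ℝ} (hm0 : 0 < m)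
    (hm1 : m < 1) (hmC : (1 - m) * C < 1)
    (hC : ∀ e ∈ P.epi, e.2 - p₁ e.1 ≤ C * (e.2 - p e.1)) : P.Supp (ineq_p2 p p₁ m) := by
  intro e he
  have h0 := ineq_p2_apply p p₁ hm0 e.1
  have h1 := hC e he
  have h2 : 0 < 1 - m := by linarith
  refine ⟨fun hne => ?_, fun hmem => ?_⟩
  · have h3 := (hp e he).1 hne
    have h4 : (1 - m) * (e.2 - p₁ e.1) ≤ (1 - m) * (C * (e.2 - p e.1)) :=
      mul_le_mul_of_nonneg_left h1 h2.le
    have h5 : (1 - m) * C * (e.2 - p e.1) < 1 * (e.2 - p e.1) :=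
      mul_lt_mul_of_pos_right hmC (by linarith)
    have h6 : m * ineq_p2 p p₁ m e.1 < m * e.2 := by
      rw [h0]
      nlinarith
    exact lt_of_mul_lt_mul_left h6 hm0.le
  · have h3 := (hp e he).2 hmem
    have h4 := hC (-e) hmem
    rw [Prod.fst_neg, Prod.snd_neg, map_neg, map_neg] at h4
    have h5 : e.2 - p₁ e.1 = 0 := by
      apply le_antisymm
      · rw [h3, sub_self, mul_zero] at h1
        exact h1
      · rw [h3] at h4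
        have h6 : C * (-e.2 - -e.2) = 0 := by ring
        rw [h6] at h4
        linarith
    have h7 : p₁ e.1 = e.2 := by linarith
    have h6 : m * ineq_p2 p p₁ m e.1 = m * e.2 := by
      rw [h0, h7, h3]
      ring
    exact mul_left_cancel₀ hm0.ne' h6

omit [FiniteDimensional ℝ E] in
private theorem ineq_mem {x v : E} (hx : x ∈ P.X) (hv : v ∈ P.V) : x + v ∈ P.X := by
  have h := (P.mem_V v).1 hv x hx 1
  rwa [one_smul] at h

theorem Pot.main_ineq (W : Submodule ℝ E) (hW : P.IsFlat W) {x₀ : E} (hx₀ : x₀ ∈ P.X)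
    (p : E →ₗ[ℝ] ℝ) (hp : P.Supp p) (g : E ≃ᵃ[ℝ] E) (a : E →ᵃ[ℝ] ℝ)
    (hg : ∀ x ∈ P.X, g x ∈ P.X) (hg' : ∀ x ∈ P.X, g⁻¹ x ∈ P.X)
    (ha : ∀ x ∈ P.X, P.φ (g x) = P.φ x + a x) {l : ℝ} (hl0 : 0 < l) (hl1 : l < 1)
    (hz : x₀ + l⁻¹ • (g⁻¹ x₀ - x₀) ∈ P.X) {m C : ℝ} (hm0 : 0 < m) (hm1 : m < 1)
    (hmC : (1 - m) * C < 1)
    (hC : ∀ e ∈ P.epi, e.2 + a.linear e.1 - p (g.linear e.1) ≤ C * (e.2 - p e.1)) :
    ∃ c : ℝ, ∀ w ∈ P.V, P.psi x₀ p (g.linear ((1 - l) • w)) ≤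
      (1 - l) / (1 - m) * P.psi x₀ p w + c := by
  obtain ⟨y, hy⟩ : ∃ y : E, y = g⁻¹ x₀ := ⟨_, rfl⟩
  obtain ⟨z, hzz⟩ : ∃ z : E, z = x₀ + l⁻¹ • (g⁻¹ x₀ - x₀) := ⟨_, rfl⟩
  have hyX : y ∈ P.X := hy ▸ hg' x₀ hx₀
  have hzX : z ∈ P.X := hzz ▸ hz
  have hgy : g y = x₀ := by
    rw [hy]
    exact g.apply_symm_apply x₀
  have hlz : l • z = l • x₀ + (y - x₀) := by
    rw [hzz, ← hy, smul_add, smul_smul, mul_inv_cancel₀ hl0.ne', one_smul]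
  obtain ⟨p₁, hp₁⟩ : ∃ p₁ : E →ₗ[ℝ] ℝ, ∀ v, p₁ v = p (g.linear v) - a.linear v :=
    ⟨p ∘ₗ (g.linear : E →ₗ[ℝ] E) - a.linear, fun v => rfl⟩
  have hsupp : P.Supp (ineq_p2 p p₁ m) := by
    refine ineq_supp P p p₁ hp hm0 hm1 hmC fun e he => ?_
    have h1 := hC e he
    rw [hp₁]
    linarith
  obtain ⟨c2, hc2⟩ := P.bdd_below W hW hx₀ _ hsupp
  have h1m : 0 < 1 - m := by linarith
  refine ⟨((1 - l) * P.φ x₀ + (1 - m) * (l * P.φ z - P.φ y) + m * (l * P.φ x₀ + c2)) / (1 - m),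
    fun w hw => ?_⟩
  have hvV : (1 - l) • w ∈ P.V := P.V.smul_mem _ hw
  have e1 : g (y + (1 - l) • w) = x₀ + g.linear ((1 - l) • w) := by
    have h1 := g.map_vadd y ((1 - l) • w)
    rw [vadd_eq_add, vadd_eq_add, hgy] at h1
    rw [add_comm y, h1, add_comm]
  have e2 : a (y + (1 - l) • w) = a y + a.linear ((1 - l) • w) := by
    have h1 := a.map_vadd y ((1 - l) • w)
    rw [vadd_eq_add, vadd_eq_add] at h1
    rw [add_comm y, h1, add_comm]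
  have e3 := ha (y + (1 - l) • w) (ineq_mem P hyX hvV)
  have e4 := ha y hyX
  rw [hgy] at e4
  rw [e1, e2] at e3
  have e5 := P.conv.2 (ineq_mem P hx₀ hw) hzX (sub_nonneg.2 hl1.le) hl0.le (by ring)
  have e6 : (1 - l) • (x₀ + w) + l • z = y + (1 - l) • w := by
    rw [hlz]
    module
  rw [e6, smul_eq_mul, smul_eq_mul] at e5
  have e7 := P.conv.2 (ineq_mem P hx₀ hw) hx₀ (sub_nonneg.2 hl1.le) hl0.le (by ring)
  have e8 : (1 - l) • (x₀ + w) + l • x₀ = x₀ + (1 - l) • w := by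
    module
  rw [e8, smul_eq_mul, smul_eq_mul] at e7
  have e9 := hc2 _ hvV
  have e10 := ineq_p2_apply p p₁ hm0 ((1 - l) • w)
  have e11 := hp₁ ((1 - l) • w)
  have e12 : p ((1 - l) • w) = (1 - l) * p w := by rw [map_smul, smul_eq_mul]
  have e13 : P.psi x₀ p (g.linear ((1 - l) • w)) =
      P.φ (y + (1 - l) • w) - P.φ y - p₁ ((1 - l) • w) := by
    rw [Pot.psi, e3, e11]
    rw [e4]
    ring
  have e14 : P.psi x₀ p w = P.φ (x₀ + w) - P.φ x₀ - p w := rfl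
  rw [e13, e14]
  have e15 : (1 - l) / (1 - m) * (P.φ (x₀ + w) - P.φ x₀ - p w) +
      ((1 - l) * P.φ x₀ + (1 - m) * (l * P.φ z - P.φ y) + m * (l * P.φ x₀ + c2)) / (1 - m) =
      ((1 - l) * (P.φ (x₀ + w) - P.φ x₀ - p w) +
      ((1 - l) * P.φ x₀ + (1 - m) * (l * P.φ z - P.φ y) + m * (l * P.φ x₀ + c2))) / (1 - m) := by
    field_simp
  rw [e15, le_div_iff₀ h1m]
  have e16 : (1 - m) * P.φ (y + (1 - l) • w) ≤ (1 - m) * ((1 - l) * P.φ (x₀ + w) + l * P.φ z) :=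
    mul_le_mul_of_nonneg_left e5 h1m.le
  have e17 : m * P.φ (x₀ + (1 - l) • w) ≤ m * ((1 - l) * P.φ (x₀ + w) + l * P.φ x₀) :=
    mul_le_mul_of_nonneg_left e7 hm0.le
  have e18 : m * ineq_p2 p p₁ m ((1 - l) • w) ≤ m * (P.φ (x₀ + (1 - l) • w) + c2) :=
    mul_le_mul_of_nonneg_left e9 hm0.le
  rw [e10, e12] at e18
  nlinarith

end Pool.Agent.Helper47.HP
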