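import Pool.Agent.Helper47.HP.Defs

/-! # Project HP: traces -/

set_option autoImplicit false

open Set

namespace Pool.Agent.Helper47.HP

/-- powers -/
private theorem trace_pow_aux {Y : Type*} [AddCommGroup Y] [Module ℝ Y]
    (T : Y →ₗ[ℝ] Y) (z : ℂ) (x y : Y)
    (hx : T x = z.re • x - z.im • y) (hy : T y = z.im • x + z.re • y) (k : ℕ) :
    (T ^ k) x = (z ^ k).re • x - (z ^ k).im • y ∧
      (T ^ k) y = (z ^ k).im • x + (z ^ k).re • y := by
  induction k with
  | zero => simp
  | succ k ih =>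
    obtain ⟨h1, h2⟩ := ih
    constructor
    · rw [pow_succ, Module.End.mul_apply, hx, map_sub, map_smul, map_smul, h1, h2, pow_succ,
        Complex.mul_re, Complex.mul_im]
      module
    · rw [pow_succ, Module.End.mul_apply, hy, map_add, map_smul, map_smul, h1, h2, pow_succ,
        Complex.mul_re, Complex.mul_im]
      module

/-- norms of powers -/
private theorem trace_norm_pow_aux {Y : Type*} [AddCommGroup Y] [Module ℝ Y]
    (T : Y →ₗ[ℝ] Y) (N : Seminorm ℝ Y) {C : ℝ} (hC : 0 ≤ C)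
    (hT : ∀ y, N (T y) ≤ C * N y) (k : ℕ) (y : Y) : N ((T ^ k) y) ≤ C ^ k * N y := by
  induction k generalizing y with
  | zero => simp
  | succ k ih =>
    rw [pow_succ, Module.End.mul_apply]
    refine (ih (T y)).trans ?_
    rw [pow_succ, mul_assoc]
    exact mul_le_mul_of_nonneg_left (hT y) (pow_nonneg hC k)

/-- an eigenvector bounds the eigenvalue -/
private theorem trace_eig_aux {Y : Type*} [AddCommGroup Y] [Module ℝ Y]
    (T : Y →ₗ[ℝ] Y) (N : Seminorm ℝ Y) (hN : ∀ y, N y = 0 → y = 0) {C : ℝ}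
    (hT : ∀ y, N (T y) ≤ C * N y) (z : ℂ) (x y : Y) (hxy : x ≠ 0 ∨ y ≠ 0)
    (hx : T x = z.re • x - z.im • y) (hy : T y = z.im • x + z.re • y) : ‖z‖ ≤ C := by
  have hNx : 0 ≤ N x := apply_nonneg N x
  have hNy : 0 ≤ N y := apply_nonneg N y
  have hpos : 0 < N x + N y := by
    rcases hxy with h | h
    · have : 0 < N x := lt_of_le_of_ne hNx (fun h0 => h (hN x h0.symm))
      linarith
    · have : 0 < N y := lt_of_le_of_ne hNy (fun h0 => h (hN y h0.symm))
      linarith
  have hC : 0 ≤ C := by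
    by_contra hlt
    rw [not_le] at hlt
    have h1 : 0 ≤ C * N x := (apply_nonneg N _).trans (hT x)
    have h2 : 0 ≤ C * N y := (apply_nonneg N _).trans (hT y)
    have h3 : 0 ≤ C * (N x + N y) := by rw [mul_add]; exact add_nonneg h1 h2
    exact absurd (mul_neg_of_neg_of_pos hlt hpos) (not_lt.2 h3)
  -- the estimate for the powers
  have key : ∀ k : ℕ, ‖z‖ ^ k ≤ 2 * C ^ k := by
    intro k
    obtain ⟨h1, h2⟩ := trace_pow_aux T z x y hx hy k
    have hCk : 0 ≤ C ^ k := pow_nonneg hC k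
    set u : ℂ := z ^ k with hu
    have hn : ‖u‖ = ‖z‖ ^ k := norm_pow z k
    have hsq : ‖u‖ * ‖u‖ = u.re * u.re + u.im * u.im := by
      rw [← Complex.normSq_apply, Complex.normSq_eq_norm_sq, sq]
    have b1 := trace_norm_pow_aux T N hC hT k x
    have b2 := trace_norm_pow_aux T N hC hT k y
    have ex : (‖u‖ * ‖u‖) • x = u.re • (T ^ k) x + u.im • (T ^ k) y := by
      rw [h1, h2, hsq]; module
    have ey : (‖u‖ * ‖u‖) • y = u.re • (T ^ k) y - u.im • (T ^ k) x := by
      rw [h1, h2, hsq]; module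
    have hre : |u.re| ≤ ‖u‖ := Complex.abs_re_le_norm u
    have him : |u.im| ≤ ‖u‖ := Complex.abs_im_le_norm u
    have hnn : 0 ≤ ‖u‖ := norm_nonneg u
    have c1 : (‖u‖ * ‖u‖) * N x ≤ ‖u‖ * (C ^ k * (N x + N y)) := by
      have e1 : N ((‖u‖ * ‖u‖) • x) = (‖u‖ * ‖u‖) * N x := by
        rw [map_smul_eq_mul, Real.norm_of_nonneg (mul_nonneg hnn hnn)]
      rw [← e1, ex]
      refine (map_add_le_add N _ _).trans ?_
      rw [map_smul_eq_mul, map_smul_eq_mul, Real.norm_eq_abs, Real.norm_eq_abs]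
      have t1 : |u.re| * N ((T ^ k) x) ≤ ‖u‖ * (C ^ k * N x) :=
        mul_le_mul hre b1 (apply_nonneg N _) hnn
      have t2 : |u.im| * N ((T ^ k) y) ≤ ‖u‖ * (C ^ k * N y) :=
        mul_le_mul him b2 (apply_nonneg N _) hnn
      calc _ ≤ ‖u‖ * (C ^ k * N x) + ‖u‖ * (C ^ k * N y) := add_le_add t1 t2
        _ = _ := by ring
    have c2 : (‖u‖ * ‖u‖) * N y ≤ ‖u‖ * (C ^ k * (N x + N y)) := by
      have e1 : N ((‖u‖ * ‖u‖) • y) = (‖u‖ * ‖u‖) * N y := by
        rw [map_smul_eq_mul, Real.norm_of_nonneg (mul_nonneg hnn hnn)]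
      rw [← e1, ey]
      refine (map_sub_le_add N _ _).trans ?_
      rw [map_smul_eq_mul, map_smul_eq_mul, Real.norm_eq_abs, Real.norm_eq_abs]
      have t1 : |u.re| * N ((T ^ k) y) ≤ ‖u‖ * (C ^ k * N y) :=
        mul_le_mul hre b2 (apply_nonneg N _) hnn
      have t2 : |u.im| * N ((T ^ k) x) ≤ ‖u‖ * (C ^ k * N x) :=
        mul_le_mul him b1 (apply_nonneg N _) hnn
      calc _ ≤ ‖u‖ * (C ^ k * N y) + ‖u‖ * (C ^ k * N x) := add_le_add t1 t2
        _ = _ := by ring
    rw [← hn]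
    rcases eq_or_lt_of_le hnn with h0 | h0
    · rw [← h0]; positivity
    · have c3 : ‖u‖ * (‖u‖ * (N x + N y)) ≤ ‖u‖ * ((2 * C ^ k) * (N x + N y)) := by
        nlinarith [c1, c2]
      exact le_of_mul_le_mul_right (le_of_mul_le_mul_left c3 h0) hpos
  by_contra hlt
  rw [not_le] at hlt
  rcases eq_or_lt_of_le hC with h0 | h0
  · have := key 1
    rw [← h0] at this hlt
    simp only [pow_one, mul_zero] at this
    linarith
  · have hr : 1 < ‖z‖ / C := (one_lt_div h0).2 hlt
    obtain ⟨k, hk⟩ := pow_unbounded_of_one_lt (2 : ℝ) hr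
    rw [div_pow, lt_div_iff₀ (pow_pos h0 k)] at hk
    exact absurd (key k) (not_le.2 hk)

theorem trace_le {Y : Type*} [AddCommGroup Y] [Module ℝ Y] [FiniteDimensional ℝ Y]
    (T : Y →ₗ[ℝ] Y) (N : Seminorm ℝ Y) (hN : ∀ y, N y = 0 → y = 0) {C : ℝ}
    (hT : ∀ y, N (T y) ≤ C * N y) :
    |LinearMap.trace ℝ Y T| ≤ C * Module.finrank ℝ Y := by
  classical
  let b := Module.finBasis ℝ Y
  let A : Matrix (Fin (Module.finrank ℝ Y)) (Fin (Module.finrank ℝ Y)) ℝ :=
    LinearMap.toMatrix b b T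
  let AC : Matrix (Fin (Module.finrank ℝ Y)) (Fin (Module.finrank ℝ Y)) ℂ :=
    A.map (fun r : ℝ => (r : ℂ))
  have htr : ((LinearMap.trace ℝ Y T : ℝ) : ℂ) = AC.charpoly.roots.sum := by
    rw [← Matrix.trace_eq_sum_roots_charpoly, LinearMap.trace_eq_matrix_trace ℝ b T]
    simp [Matrix.trace, AC, A]
  have hroot : ∀ z ∈ AC.charpoly.roots, ‖z‖ ≤ C := by
    intro z hz
    have h1 : AC.charpoly.IsRoot z := (Polynomial.mem_roots'.1 hz).2
    have h2 : (Matrix.scalar _ z - AC).det = 0 := by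
      rw [← Matrix.eval_charpoly]; exact h1
    obtain ⟨v, hv0, hv⟩ := Matrix.exists_mulVec_eq_zero_iff.2 h2
    have h3 : ∀ i, ∑ j, (A i j : ℂ) * v j = z * v i := by
      intro i
      have h4 := congrFun hv i
      rw [Matrix.sub_mulVec] at h4
      simp only [Pi.sub_apply, Pi.zero_apply] at h4
      have h5 : (Matrix.scalar (Fin (Module.finrank ℝ Y)) z).mulVec v i = z * v i := by
        simp [Matrix.scalar_apply, Matrix.mulVec_diagonal]
      rw [h5, sub_eq_zero] at h4
      rw [h4]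
      rfl
    let x : Y := b.equivFun.symm (fun i => (v i).re)
    let y : Y := b.equivFun.symm (fun i => (v i).im)
    have hxr : ∀ i, b.repr x i = (v i).re := fun i => by
      rw [← Module.Basis.equivFun_apply, LinearEquiv.apply_symm_apply]
    have hyr : ∀ i, b.repr y i = (v i).im := fun i => by
      rw [← Module.Basis.equivFun_apply, LinearEquiv.apply_symm_apply]
    have hTr : ∀ (w : Y) i, b.repr (T w) i = ∑ j, A i j * b.repr w j := by
      intro w i
      rw [← LinearMap.toMatrix_mulVec_repr b b T w]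
      rfl
    refine trace_eig_aux T N hN hT z x y ?_ ?_ ?_
    · by_contra hcon
      push Not at hcon
      apply hv0
      funext i
      apply Complex.ext
      · rw [← hxr i, hcon.1]; simp
      · rw [← hyr i, hcon.2]; simp
    · apply b.repr.injective
      ext i
      rw [hTr x i]
      have h6 := congrArg Complex.re (h3 i)
      simp only [Complex.re_sum, Complex.mul_re, Complex.ofReal_re, Complex.ofReal_im, zero_mul,
        sub_zero] at h6
      simp only [map_sub, map_smul, Finsupp.coe_sub, Finsupp.coe_smul, Pi.sub_apply,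
        Pi.smul_apply, smul_eq_mul, hxr, hyr]
      exact h6
    · apply b.repr.injective
      ext i
      rw [hTr y i]
      have h6 := congrArg Complex.im (h3 i)
      simp only [Complex.im_sum, Complex.mul_im, Complex.ofReal_re, Complex.ofReal_im, zero_mul,
        add_zero] at h6
      simp only [map_add, map_smul, Finsupp.coe_add, Finsupp.coe_smul, Pi.add_apply,
        Pi.smul_apply, smul_eq_mul, hxr, hyr]
      rw [h6]; ring
  have hcard : AC.charpoly.roots.card = Module.finrank ℝ Y := by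
    have h1 : AC.charpoly.roots.card = AC.charpoly.natDegree :=
      (Polynomial.splits_iff_card_roots.1 (IsAlgClosed.splits _))
    rw [h1, Matrix.charpoly_natDegree_eq_dim, Fintype.card_fin]
  have h1 : |LinearMap.trace ℝ Y T| = ‖AC.charpoly.roots.sum‖ := by
    rw [← htr, Complex.norm_real, Real.norm_eq_abs]
  rw [h1]
  refine (norm_multiset_sum_le _).trans ?_
  refine (Multiset.sum_le_card_nsmul _ C ?_).trans ?_
  · intro r hr
    obtain ⟨z, hz, rfl⟩ := Multiset.mem_map.1 hr
    exact hroot z hz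
  · rw [Multiset.card_map, hcard, nsmul_eq_mul, mul_comm]

theorem body_trace {E : Type*} [NormedAddCommGroup E] [NormedSpace ℝ E] [FiniteDimensional ℝ E]
    {V W T U : Submodule ℝ E} {K : Set E} (hK : IsBody V W K) (hWT : W ≤ T) (hTU : T ≤ U) (hUV : U ≤ V)
    (A : E →ₗ[ℝ] E) (hU : ∀ u ∈ U, A u ∈ U) (hT : ∀ u ∈ T, A u ∈ T) {C : ℝ} (hC : 0 ≤ C)
    (hA : ∀ v ∈ K, ∃ u ∈ K, A v = C • u) :
    |LinearMap.trace ℝ _ (qMap T U A hU hT)| ≤
      C * Module.finrank ℝ (U ⧸ T.submoduleOf U) := by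
  classical
  let π : U →ₗ[ℝ] (U ⧸ T.submoduleOf U) := (T.submoduleOf U).mkQ
  have h0K : (0 : E) ∈ K := hK.flat 0 W.zero_mem
  let K0 : Set U := {u | (u : E) ∈ K}
  let K' : Set (U ⧸ T.submoduleOf U) := π '' K0
  have hK0c : Convex ℝ K0 := hK.convex.linear_preimage U.subtype
  have hK'c : Convex ℝ K' := hK0c.linear_image π
  have hbal : Balanced ℝ K' := by
    rw [balanced_iff_neg_mem hK'c]
    rintro _ ⟨u, hu, rfl⟩
    exact ⟨-u, hK.symm _ hu, map_neg π u⟩
  have hsmul : ∀ (y : U ⧸ T.submoduleOf U), ∃ t : ℝ, 0 < t ∧ t • y ∈ K' := by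
    intro y
    obtain ⟨u, rfl⟩ := Submodule.mkQ_surjective (T.submoduleOf U) y
    obtain ⟨t, ht, htu⟩ := hK.absorb u (hUV u.2)
    exact ⟨t, ht, t • u, htu, map_smul π t u⟩
  have habs : Absorbent ℝ K' := by
    rw [absorbent_iff_eventually_nhdsNE_zero]
    intro y
    obtain ⟨t, ht, hty⟩ := hsmul y
    refine Filter.Eventually.filter_mono nhdsWithin_le_nhds ?_
    rw [Metric.eventually_nhds_iff]
    refine ⟨t, ht, fun c hc => ?_⟩
    rw [dist_zero_right, Real.norm_eq_abs] at hc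
    have hb := hbal (c / t) (by
      rw [Real.norm_eq_abs, abs_div, abs_of_pos ht]
      exact (div_le_one ht).2 hc.le)
    have h1 : (c / t) • (t • y) ∈ K' := hb (Set.smul_mem_smul_set hty)
    rwa [smul_smul, div_mul_cancel₀ _ ht.ne'] at h1
  let N : Seminorm ℝ (U ⧸ T.submoduleOf U) := gaugeSeminorm hbal hK'c habs
  have hNdef : ∀ y, N y = gauge K' y := fun y => rfl
  obtain ⟨ϱ, hϱ⟩ := hK.bdd
  have hTcl : IsClosed (T : Set E) := Submodule.closed_of_finiteDimensional T
  have hN : ∀ y, N y = 0 → y = 0 := by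
    intro y hy
    obtain ⟨u, rfl⟩ := Submodule.mkQ_surjective (T.submoduleOf U) y
    have hmem : (u : E) ∈ T := by
      rw [← SetLike.mem_coe, ← hTcl.closure_eq, Metric.mem_closure_iff]
      intro ε hε
      have hρ : 0 < ε / (|ϱ| + 1) := by positivity
      have h1 : gauge K' (π u) < ε / (|ϱ| + 1) := by
        have : gauge K' (π u) = 0 := hy
        rw [this]; exact hρ
      obtain ⟨r, hr0, hr1, hr2⟩ := exists_lt_of_gauge_lt habs h1
      obtain ⟨_, ⟨k, hk, rfl⟩, hk2⟩ := hr2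
      obtain ⟨w, hw, hwk⟩ := hϱ k hk
      have hwT : w ∈ T := hWT hw
      have h2 : π (u - r • k) = 0 := by
        rw [map_sub, map_smul]
        exact sub_eq_zero.2 hk2.symm
      have h3 : ((u - r • k : U) : E) ∈ T := by
        rw [Submodule.mkQ_apply, Submodule.Quotient.mk_eq_zero] at h2
        exact h2
      refine ⟨((u - r • k : U) : E) + r • w, T.add_mem h3 (T.smul_mem r hwT), ?_⟩
      rw [dist_eq_norm]
      have e : (u : E) - (((u - r • k : U) : E) + r • w) = r • ((k : E) - w) := by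
        push_cast
        rw [smul_sub]
        abel
      rw [e, norm_smul, Real.norm_eq_abs, abs_of_pos hr0]
      calc r * ‖(k : E) - w‖ ≤ r * |ϱ| :=
            mul_le_mul_of_nonneg_left (hwk.trans (le_abs_self _)) hr0.le
        _ ≤ r * (|ϱ| + 1) := mul_le_mul_of_nonneg_left (by linarith) hr0.le
        _ < ε / (|ϱ| + 1) * (|ϱ| + 1) := mul_lt_mul_of_pos_right hr1 (by positivity)
        _ = ε := by field_simp
    rw [Submodule.mkQ_apply, Submodule.Quotient.mk_eq_zero]
    exact hmem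
  refine trace_le (qMap T U A hU hT) N hN ?_
  intro y
  rw [hNdef, hNdef]
  -- the basic estimate
  have step : ∀ r : ℝ, gauge K' y < r → gauge K' (qMap T U A hU hT y) ≤ C * r := by
    intro r hr
    obtain ⟨s, hs0, hs1, hs2⟩ := exists_lt_of_gauge_lt habs hr
    obtain ⟨_, ⟨k, hk, rfl⟩, hk2⟩ := hs2
    obtain ⟨v, hv, hAv⟩ := hA k hk
    have hk3 : y = s • π k := hk2.symm
    have h1 : qMap T U A hU hT y = s • π ⟨A k, hU k k.2⟩ := by
      rw [hk3, map_smul]
      rfl
    rcases eq_or_lt_of_le hC with h0 | h0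
    · have h2 : (⟨A k, hU k k.2⟩ : U) = 0 := by
        apply Subtype.ext
        change A k = 0
        rw [hAv, ← h0, zero_smul]
      rw [h1, h2, map_zero, smul_zero, gauge_zero, ← h0, zero_mul]
    · have hvU : v ∈ U := by
        have h3 : v = C⁻¹ • A k := by
          rw [hAv, smul_smul, inv_mul_cancel₀ h0.ne', one_smul]
        rw [h3]
        exact U.smul_mem _ (hU k k.2)
      have h2 : (⟨A k, hU k k.2⟩ : U) = C • (⟨v, hvU⟩ : U) := Subtype.ext hAv
      rw [h1, h2, map_smul, smul_smul, mul_comm s C]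
      have h4 : π (⟨v, hvU⟩ : U) ∈ K' := ⟨⟨v, hvU⟩, hv, rfl⟩
      refine (gauge_le_of_mem (mul_nonneg hC hs0.le) (Set.smul_mem_smul_set h4)).trans ?_
      exact mul_le_mul_of_nonneg_left hs1.le hC
  rcases eq_or_lt_of_le hC with h0 | h0
  · have h1 := step (gauge K' y + 1) (by linarith)
    rw [← h0, zero_mul] at h1 ⊢
    exact h1
  · refine le_of_forall_pos_le_add fun ε hε => ?_
    have h1 := step (gauge K' y + ε / C) (by
      have : 0 < ε / C := div_pos hε h0
      linarith)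
    rw [mul_add, mul_div_cancel₀ _ h0.ne'] at h1
    exact h1

end Pool.Agent.Helper47.HP
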